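import Pool.Graph.R_seed8.Y882.Err

/-! The error term for pairs `(a, d)`: the classes `-a / d (mod m)`, averaged over a set of pairs.
Large conductors are handled by counting coincidences `a d' ≡ a' d (mod m)`. -/

set_option autoImplicit false

open Finset

namespace Pool.Agent.H570.PR

open Pool.Agent.Y882
open Pool.Agent.Helper112 Pool.Agent.Helper112.BLB
open Pool.Agent.H732R2.B2 (Sc card_prim)

/-- the product `|a| d` -/
def NN (P : ℤ × ℕ) : ℕ := P.1.natAbs * P.2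

/-- the residue class of `q` modulo the divisors `m` of `a + q d` -/
noncomputable def rr (m : ℕ) (P : ℤ × ℕ) : ℕ := (-(P.1 : ZMod m) * ((P.2 : ZMod m))⁻¹).val

theorem isUnit_int (m : ℕ) (a : ℤ) : IsUnit (a : ZMod m) ↔ a.natAbs.Coprime m := by
  rw [← ZMod.isUnit_iff_coprime]
  rcases Int.natAbs_eq a with h | h
  · rw [← Int.cast_natCast, ← h]
  · have h2 : ((a.natAbs : ℕ) : ZMod m) = -(a : ZMod m) := by
      rw [← Int.cast_natCast]
      conv_rhs => rw [h]
      push_cast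
      ring
    rw [h2, IsUnit.neg_iff]

theorem rr_cast (m : ℕ) [NeZero m] (P : ℤ × ℕ) :
    ((rr m P : ℕ) : ZMod m) = -(P.1 : ZMod m) * ((P.2 : ZMod m))⁻¹ := by
  unfold rr
  rw [ZMod.natCast_val, ZMod.cast_id', id]

theorem NN_left {P : ℤ × ℕ} {m : ℕ} (h : (NN P).Coprime m) : P.1.natAbs.Coprime m :=
  Nat.Coprime.coprime_mul_right h

theorem NN_right {P : ℤ × ℕ} {m : ℕ} (h : (NN P).Coprime m) : P.2.Coprime m :=
  Nat.Coprime.coprime_mul_left h

theorem inv_unit (m : ℕ) (d : ℕ) (h : d.Coprime m) : IsUnit ((d : ZMod m)⁻¹) := by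
  have hu : IsUnit (d : ZMod m) := (ZMod.isUnit_iff_coprime d m).mpr h
  rw [← hu.unit_spec, ZMod.inv_coe_unit]
  exact Units.isUnit _

theorem rr_cop (m : ℕ) [NeZero m] (P : ℤ × ℕ) (h : (NN P).Coprime m) : (rr m P).Coprime m := by
  rw [← ZMod.isUnit_iff_coprime, rr_cast]
  refine IsUnit.mul ?_ (inv_unit m _ (NN_right h))
  rw [IsUnit.neg_iff, isUnit_int]
  exact NN_left h

theorem rr_iff (m b : ℕ) [NeZero m] (P : ℤ × ℕ) (h : (NN P).Coprime m) :
    (m : ℤ) ∣ P.1 + b * P.2 ↔ b ≡ rr m P [MOD m] := by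
  rw [← ZMod.natCast_eq_natCast_iff, rr_cast, ← ZMod.intCast_zmod_eq_zero_iff_dvd]
  push_cast
  have hu : IsUnit (P.2 : ZMod m) := (ZMod.isUnit_iff_coprime P.2 m).mpr (NN_right h)
  have h1 : (P.2 : ZMod m) * (P.2 : ZMod m)⁻¹ = 1 := ZMod.coe_mul_inv_eq_one P.2 (NN_right h)
  constructor
  · intro h2
    have h3 : (b : ZMod m) * P.2 = -P.1 := by linear_combination h2
    rw [← h3]
    linear_combination (-(b : ZMod m)) * h1
  · intro h2
    rw [h2]
    linear_combination (-(P.1 : ZMod m)) * h1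

/-- the character sum over pairs -/
noncomputable def BB (S : Finset (ℤ × ℕ)) (m : ℕ) (χ : DirichletCharacter ℂ m) : ℂ :=
  ∑ P ∈ S, χ (-(P.1 : ZMod m)) * (starRingEnd ℂ) (χ (P.2 : ZMod m))

theorem char_term (m : ℕ) [NeZero m] (χ : DirichletCharacter ℂ m) (P : ℤ × ℕ)
    (h : (NN P).Coprime m) :
    χ (-(P.1 : ZMod m)) * (starRingEnd ℂ) (χ (P.2 : ZMod m)) = χ ((rr m P : ℕ) : ZMod m) := by
  rw [rr_cast, map_mul, char_inv_conj m χ P.2 (NN_right h)]

theorem char_term_zero (m : ℕ) (χ : DirichletCharacter ℂ m) (P : ℤ × ℕ)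
    (h : ¬ (NN P).Coprime m) :
    χ (-(P.1 : ZMod m)) * (starRingEnd ℂ) (χ (P.2 : ZMod m)) = 0 := by
  by_cases h1 : P.1.natAbs.Coprime m
  · have h2 : ¬ P.2.Coprime m := fun h2 => h (Nat.Coprime.mul_left h1 h2)
    rw [MulChar.map_nonunit χ (a := (P.2 : ZMod m))
      (fun hu => h2 ((ZMod.isUnit_iff_coprime _ _).mp hu))]
    simp
  · rw [MulChar.map_nonunit χ (a := -(P.1 : ZMod m))
      (fun hu => h1 ((isUnit_int m P.1).1 ((IsUnit.neg_iff _).1 hu)))]
    simp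

/-- the sum over primitive characters -/
noncomputable def PB (X : ℕ) (α : ℕ → ℝ) (S : Finset (ℤ × ℕ)) (f : ℕ) : ℝ :=
  open Classical in
  ∑ ψ ∈ (univ : Finset (DirichletCharacter ℂ f)).filter (fun χ => χ.IsPrimitive),
    ‖A X α f ψ‖ * ‖BB S f ψ‖

theorem PB_nonneg (X : ℕ) (α : ℕ → ℝ) (S : Finset (ℤ × ℕ)) (f : ℕ) : 0 ≤ PB X α S f :=
  sum_nonneg fun _ _ => by positivity

theorem BB_changeLevel (S : Finset (ℤ × ℕ)) (f g : ℕ) (h : f ∣ f * g)
    (ψ : DirichletCharacter ℂ f) :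
    BB S (f * g) (DirichletCharacter.changeLevel h ψ) =
      BB (S.filter (fun P => (NN P).Coprime g)) f ψ := by
  unfold BB
  rw [sum_filter]
  apply sum_congr rfl
  intro P _
  by_cases hb : (NN P).Coprime (f * g)
  · have hg : (NN P).Coprime g := Nat.Coprime.coprime_mul_left_right hb
    rw [if_pos hg]
    have h1 := DirichletCharacter.changeLevel_eq_cast_of_dvd' ψ h (a := -P.1) (by
      have h2 : P.1.natAbs.Coprime (f * g) := NN_left hb
      rw [Int.isCoprime_iff_gcd_eq_one, Int.neg_gcd]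
      exact h2)
    have h2 := DirichletCharacter.changeLevel_eq_cast_of_dvd' ψ h (a := (P.2 : ℤ))
      (by exact_mod_cast Nat.isCoprime_iff_coprime.mpr (NN_right hb))
    push_cast at h1 h2
    rw [h1, h2]
  · rw [char_term_zero _ _ P hb]
    split_ifs with hg
    · have : ¬ (NN P).Coprime f := fun hf => hb (Nat.Coprime.mul_right hf hg)
      rw [char_term_zero _ _ P this]
    · rfl

theorem ed_sum (X : ℕ) (α : ℕ → ℝ) (S : Finset (ℤ × ℕ)) (m : ℕ) (hm : m ≠ 0) :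
    |∑ P ∈ S.filter (fun P => (NN P).Coprime m), Ed X α m (rr m P)| ≤
      ∑ f ∈ m.divisors.filter (fun f => f ≠ 1),
        (1 / (Nat.totient m : ℝ)) * PB X (res (m / f) α)
          (S.filter (fun P => (NN P).Coprime (m / f))) f := by
  classical
  have : NeZero m := ⟨hm⟩
  have key : ((∑ P ∈ S.filter (fun P => (NN P).Coprime m), Ed X α m (rr m P) : ℝ) : ℂ) =
      (1 / (Nat.totient m : ℂ)) *
      ∑ χ ∈ (univ : Finset (DirichletCharacter ℂ m)).filter (fun χ => χ ≠ 1),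
        A X α m χ * (starRingEnd ℂ) (BB S m χ) := by
    rw [Complex.ofReal_sum, sum_congr rfl fun P hP => ed_char X α m (rr m P)
      (rr_cop m P (mem_filter.1 hP).2), ← mul_sum, sum_comm]
    congr 1
    apply sum_congr rfl
    intro χ _
    rw [← sum_mul, mul_comm]
    congr 1
    unfold BB
    rw [map_sum, sum_filter]
    apply sum_congr rfl
    intro P _
    split_ifs with h
    · rw [← char_term m χ P h]
    · rw [char_term_zero m χ P h]
      simp
  rw [← Real.norm_eq_abs, ← Complex.norm_real, key, norm_mul]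
  have n1 : ‖(1 / (Nat.totient m : ℂ))‖ = 1 / (Nat.totient m : ℝ) := by
    rw [norm_div, norm_one, Complex.norm_natCast]
  rw [n1, ← mul_sum]
  apply mul_le_mul_of_nonneg_left _ (by positivity)
  refine (norm_sum_le _ _).trans ?_
  have h3 : ∀ χ ∈ (univ : Finset (DirichletCharacter ℂ m)).filter (fun χ => χ ≠ 1),
      ‖A X α m χ * (starRingEnd ℂ) (BB S m χ)‖ = ‖A X α m χ‖ * ‖BB S m χ‖ := by
    intro χ _
    rw [norm_mul, RCLike.norm_conj]
  rw [sum_congr rfl h3]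
  apply step2 m (fun χ => ‖A X α m χ‖ * ‖BB S m χ‖) (fun χ => by positivity)
    (fun f ψ => ‖A X (res (m / f) α) f ψ‖ * ‖BB (S.filter (fun P => (NN P).Coprime (m / f))) f ψ‖)
  intro f h ψ
  obtain ⟨g, rfl⟩ := h
  have hf : 0 < f := by
    rcases Nat.eq_zero_or_pos f with h | h
    · subst h; simp at hm
    · exact h
  rw [Nat.mul_div_cancel_left g hf, A_changeLevel, BB_changeLevel]

theorem BB_le_card (S : Finset (ℤ × ℕ)) (f : ℕ) (ψ : DirichletCharacter ℂ f) :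
    ‖BB S f ψ‖ ≤ S.card := by
  unfold BB
  refine (norm_sum_le _ _).trans ?_
  have h1 : ∑ P ∈ S, ‖ψ (-(P.1 : ZMod f)) * (starRingEnd ℂ) (ψ (P.2 : ZMod f))‖ ≤
      ∑ P ∈ S, (1 : ℝ) := by
    apply sum_le_sum
    intro P _
    rw [norm_mul, RCLike.norm_conj]
    calc ‖ψ (-(P.1 : ZMod f))‖ * ‖ψ (P.2 : ZMod f)‖ ≤ 1 * 1 :=
          mul_le_mul (ψ.norm_le_one _) (ψ.norm_le_one _) (norm_nonneg _) zero_le_one
      _ = 1 := one_mul _
  refine h1.trans ?_
  simp

/-- orthogonality -/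
theorem orth (f : ℕ) [NeZero f] (u v : ZMod f) :
    (∑ χ : DirichletCharacter ℂ f, χ u * (starRingEnd ℂ) (χ v)) =
      if u = v ∧ IsUnit v then (Nat.totient f : ℂ) else 0 := by
  by_cases hv : IsUnit v
  · have h1 := DirichletCharacter.sum_char_inv_mul_char_eq ℂ hv u
    have h2 : ∀ χ : DirichletCharacter ℂ f, χ u * (starRingEnd ℂ) (χ v) = χ v⁻¹ * χ u := by
      intro χ
      have hv2 : (v.val).Coprime f := by
        rw [← ZMod.isUnit_iff_coprime, ZMod.natCast_val, ZMod.cast_id', id]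
        exact hv
      have h3 := char_inv_conj f χ v.val hv2
      rw [ZMod.natCast_val, ZMod.cast_id', id] at h3
      rw [h3, mul_comm]
    rw [sum_congr rfl fun χ _ => h2 χ, h1]
    by_cases h4 : u = v
    · rw [if_pos h4.symm, if_pos ⟨h4, hv⟩]
    · rw [if_neg (fun h => h4 h.symm), if_neg (fun h => h4 h.1)]
  · rw [if_neg (fun h => hv h.2)]
    apply sum_eq_zero
    intro χ _
    rw [MulChar.map_nonunit χ hv]
    simp

open Classical in
/-- the number of coincidences modulo `f` -/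
noncomputable def coin (S : Finset (ℤ × ℕ)) (f : ℕ) : ℕ :=
  ((S ×ˢ S).filter (fun Q => (f : ℤ) ∣ Q.1.1 * Q.2.2 - Q.2.1 * Q.1.2)).card

theorem BB_sq (S : Finset (ℤ × ℕ)) (f : ℕ) (hf : f ≠ 0) :
    (1 / (Nat.totient f : ℝ)) * ∑ χ : DirichletCharacter ℂ f, ‖BB S f χ‖ ^ 2 ≤ coin S f := by
  classical
  have : NeZero f := ⟨hf⟩
  have hφ : (0 : ℝ) < Nat.totient f := by
    exact_mod_cast Nat.totient_pos.mpr (Nat.pos_of_ne_zero hf)
  have h1 : ((∑ χ : DirichletCharacter ℂ f, ‖BB S f χ‖ ^ 2 : ℝ) : ℂ) =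
      ∑ Q ∈ S ×ˢ S, (if (-(Q.1.1 : ZMod f) * Q.2.2) = (-(Q.2.1 : ZMod f) * Q.1.2) ∧
        IsUnit (-(Q.2.1 : ZMod f) * Q.1.2) then (Nat.totient f : ℂ) else 0) := by
    push_cast
    have h2 : ∀ χ : DirichletCharacter ℂ f, ((‖BB S f χ‖ : ℂ)) ^ 2 =
        ∑ Q ∈ S ×ˢ S, χ (-(Q.1.1 : ZMod f) * Q.2.2) *
          (starRingEnd ℂ) (χ (-(Q.2.1 : ZMod f) * Q.1.2)) := by
      intro χ
      rw [← Complex.mul_conj']
      unfold BB
      rw [map_sum, sum_mul_sum, ← sum_product']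
      apply sum_congr rfl
      intro Q _
      simp only [map_mul, RingHomCompTriple.comp_apply, RingHom.id_apply]
      ring
    rw [sum_congr rfl fun χ _ => h2 χ, sum_comm]
    exact sum_congr rfl fun Q _ => orth f _ _
  have h2 : (∑ χ : DirichletCharacter ℂ f, ‖BB S f χ‖ ^ 2 : ℝ) =
      ∑ Q ∈ S ×ˢ S, (if (-(Q.1.1 : ZMod f) * Q.2.2) = (-(Q.2.1 : ZMod f) * Q.1.2) ∧
        IsUnit (-(Q.2.1 : ZMod f) * Q.1.2) then (Nat.totient f : ℝ) else 0) := by
    apply Complex.ofReal_injective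
    rw [h1, Complex.ofReal_sum]
    apply sum_congr rfl
    intro Q _
    split_ifs <;> simp
  rw [h2, mul_sum]
  unfold coin
  rw [card_filter, Nat.cast_sum]
  apply sum_le_sum
  intro Q _
  by_cases h3 : (-(Q.1.1 : ZMod f) * Q.2.2) = (-(Q.2.1 : ZMod f) * Q.1.2) ∧
        IsUnit (-(Q.2.1 : ZMod f) * Q.1.2)
  · rw [if_pos h3]
    have h4 : (f : ℤ) ∣ Q.1.1 * Q.2.2 - Q.2.1 * Q.1.2 := by
      rw [← ZMod.intCast_zmod_eq_zero_iff_dvd]
      push_cast
      linear_combination (-1 : ZMod f) * h3.1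
    rw [if_pos h4]
    push_cast
    rw [one_div, inv_mul_cancel₀ hφ.ne']
  · rw [if_neg h3, mul_zero]
    positivity

theorem coin_mono {S T : Finset (ℤ × ℕ)} (h : S ⊆ T) (f : ℕ) : coin S f ≤ coin T f := by
  classical
  unfold coin
  apply card_le_card
  intro Q hQ
  rw [mem_filter, mem_product] at hQ ⊢
  exact ⟨⟨h hQ.1.1, h hQ.1.2⟩, hQ.2⟩

theorem pair_ne (P Q : ℤ × ℕ) (hP : Int.gcd P.1 P.2 = 1) (hQ : Int.gcd Q.1 Q.2 = 1)
    (hP2 : 1 ≤ P.2) (hQ2 : 1 ≤ Q.2) (h : P.1 * Q.2 - Q.1 * P.2 = 0) : P = Q := by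
  have h1 : P.1 * Q.2 = Q.1 * P.2 := by linarith
  have h2 : (P.2 : ℤ) ∣ Q.2 := by
    have h3 : (P.2 : ℤ) ∣ P.1 * Q.2 := ⟨Q.1, by rw [h1, mul_comm]⟩
    refine IsCoprime.dvd_of_dvd_mul_left ?_ h3
    rw [Int.isCoprime_iff_gcd_eq_one, Int.gcd_comm]
    exact hP
  have h3 : (Q.2 : ℤ) ∣ P.2 := by
    have h3 : (Q.2 : ℤ) ∣ Q.1 * P.2 := ⟨P.1, by rw [← h1, mul_comm]⟩
    refine IsCoprime.dvd_of_dvd_mul_left ?_ h3
    rw [Int.isCoprime_iff_gcd_eq_one, Int.gcd_comm]
    exact hQ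
  have h4 : P.2 = Q.2 := Nat.dvd_antisymm (by exact_mod_cast h2) (by exact_mod_cast h3)
  have h5 : P.1 = Q.1 := by
    rw [← h4] at h1
    have h6 : (P.2 : ℤ) ≠ 0 := by
      have : 0 < P.2 := hP2
      exact_mod_cast this.ne'
    exact mul_right_cancel₀ h6 h1
  exact Prod.ext h5 h4

/-- the coincidences on average over the moduli -/
theorem coin_sum (S : Finset (ℤ × ℕ)) (hS : ∀ P ∈ S, Int.gcd P.1 P.2 = 1 ∧ 1 ≤ P.2)
    (F0 F1 : ℕ) (h0 : 1 ≤ F0) (B : ℝ)
    (hB : ∀ P ∈ S, ∀ Q ∈ S, P.1 * Q.2 - Q.1 * P.2 ≠ 0 →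
      (((P.1 * Q.2 - Q.1 * P.2).natAbs.divisors.card : ℕ) : ℝ) ≤ B) (hB0 : 0 ≤ B) :
    ∑ f ∈ Icc F0 F1, (coin S f : ℝ) ≤ F1 * S.card + B * (S.card : ℝ) ^ 2 := by
  classical
  have h1 : ∑ f ∈ Icc F0 F1, (coin S f : ℝ) = ∑ Q ∈ S ×ˢ S,
      (((Icc F0 F1).filter (fun f : ℕ => (f : ℤ) ∣ Q.1.1 * Q.2.2 - Q.2.1 * Q.1.2)).card : ℝ) := by
    unfold coin
    simp_rw [card_filter, Nat.cast_sum]
    rw [sum_comm]
  have h2 : ∀ Q ∈ S ×ˢ S,
      (((Icc F0 F1).filter (fun f : ℕ => (f : ℤ) ∣ Q.1.1 * Q.2.2 - Q.2.1 * Q.1.2)).card : ℝ) ≤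
      (if Q.1 = Q.2 then (F1 : ℝ) else 0) + B := by
    intro Q hQ
    rw [mem_product] at hQ
    by_cases h3 : Q.1 = Q.2
    · rw [if_pos h3]
      have h4 : ((Icc F0 F1).filter
          (fun f : ℕ => (f : ℤ) ∣ Q.1.1 * Q.2.2 - Q.2.1 * Q.1.2)).card ≤ F1 := by
        refine (card_filter_le _ _).trans ?_
        rw [Nat.card_Icc]
        omega
      have h5 : (((Icc F0 F1).filter
          (fun f : ℕ => (f : ℤ) ∣ Q.1.1 * Q.2.2 - Q.2.1 * Q.1.2)).card : ℝ) ≤ F1 := by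
        exact_mod_cast h4
      linarith
    · rw [if_neg h3, zero_add]
      have h4 : Q.1.1 * Q.2.2 - Q.2.1 * Q.1.2 ≠ 0 := fun h5 =>
        h3 (pair_ne Q.1 Q.2 (hS _ hQ.1).1 (hS _ hQ.2).1 (hS _ hQ.1).2 (hS _ hQ.2).2 h5)
      refine le_trans ?_ (hB Q.1 hQ.1 Q.2 hQ.2 h4)
      have h5 : ((Icc F0 F1).filter
          (fun f : ℕ => (f : ℤ) ∣ Q.1.1 * Q.2.2 - Q.2.1 * Q.1.2)).card ≤
          (Q.1.1 * Q.2.2 - Q.2.1 * Q.1.2).natAbs.divisors.card := by
        apply card_le_card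
        intro f hf
        rw [mem_filter] at hf
        rw [Nat.mem_divisors]
        exact ⟨Int.natCast_dvd.1 hf.2, Int.natAbs_ne_zero.2 h4⟩
      exact_mod_cast h5
  rw [h1]
  refine (sum_le_sum h2).trans ?_
  rw [sum_add_distrib, sum_const, card_product, nsmul_eq_mul]
  have h3 : ∑ Q ∈ S ×ˢ S, (if Q.1 = Q.2 then (F1 : ℝ) else 0) = F1 * S.card := by
    rw [sum_product]
    have h4 : ∀ P ∈ S, ∑ Q ∈ S, (if P = Q then (F1 : ℝ) else 0) = F1 := by
      intro P hP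
      rw [sum_ite_eq, if_pos hP]
    rw [sum_congr rfl h4, sum_const, nsmul_eq_mul, mul_comm]
  rw [h3]
  push_cast
  apply le_of_eq
  ring

/-- the large conductors -/
theorem large_f (X : ℕ) (α : ℕ → ℝ) (S : Finset (ℤ × ℕ)) (F0 F1 : ℕ) (h0 : 1 ≤ F0) (h1 : 1 ≤ F1) :
    ∑ f ∈ Icc F0 F1, (1 / (Nat.totient f : ℝ)) * PB X α S f ≤
      Real.sqrt (12 * (1 + Real.log F1) * (Real.sqrt (X * X) / F0 + (Real.sqrt X + Real.sqrt X) +
        F1) * ∑ b ∈ Icc 1 X, α b ^ 2) * Real.sqrt (∑ f ∈ Icc F0 F1, (coin S f : ℝ)) := by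
  classical
  have hA := step45 X X α α F0 F1 h0 h1
  rw [Real.mul_self_sqrt (sum_nonneg fun b _ => sq_nonneg _)] at hA
  set SA := ∑ f ∈ Icc F0 F1, (1 / (Nat.totient f : ℝ)) * P X X α α f with hSA
  have hSA' : SA = ∑ f ∈ Icc F0 F1, ∑ χ ∈ (univ : Finset (DirichletCharacter ℂ f)).filter
      (fun χ => χ.IsPrimitive), (Real.sqrt (1 / (Nat.totient f : ℝ)) * ‖A X α f χ‖) ^ 2 := by
    rw [hSA]
    apply sum_congr rfl; intro f _
    unfold P
    rw [mul_sum]
    apply sum_congr rfl; intro χ _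
    rw [mul_pow, Real.sq_sqrt (by positivity)]
    ring
  set SB := ∑ f ∈ Icc F0 F1, ∑ χ ∈ (univ : Finset (DirichletCharacter ℂ f)).filter
      (fun χ => χ.IsPrimitive), (Real.sqrt (1 / (Nat.totient f : ℝ)) * ‖BB S f χ‖) ^ 2 with hSB
  have hSB' : SB ≤ ∑ f ∈ Icc F0 F1, (coin S f : ℝ) := by
    rw [hSB]
    apply sum_le_sum
    intro f hf
    rw [mem_Icc] at hf
    refine le_trans ?_ (BB_sq S f (by omega))
    rw [mul_sum]
    have h2 : ∀ χ ∈ (univ : Finset (DirichletCharacter ℂ f)).filter (fun χ => χ.IsPrimitive),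
        (Real.sqrt (1 / (Nat.totient f : ℝ)) * ‖BB S f χ‖) ^ 2 =
        (1 / (Nat.totient f : ℝ)) * ‖BB S f χ‖ ^ 2 := by
      intro χ _
      rw [mul_pow, Real.sq_sqrt (by positivity)]
    rw [sum_congr rfl h2]
    exact sum_le_sum_of_subset_of_nonneg (filter_subset _ _) fun χ _ _ => by positivity
  have h3 : ∑ f ∈ Icc F0 F1, (1 / (Nat.totient f : ℝ)) * PB X α S f =
      ∑ f ∈ Icc F0 F1, ∑ χ ∈ (univ : Finset (DirichletCharacter ℂ f)).filter
      (fun χ => χ.IsPrimitive), (Real.sqrt (1 / (Nat.totient f : ℝ)) * ‖A X α f χ‖) *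
        (Real.sqrt (1 / (Nat.totient f : ℝ)) * ‖BB S f χ‖) := by
    apply sum_congr rfl; intro f _
    unfold PB
    rw [mul_sum]
    apply sum_congr rfl; intro χ _
    have : (1 / (Nat.totient f : ℝ)) = Real.sqrt (1 / (Nat.totient f : ℝ)) *
      Real.sqrt (1 / (Nat.totient f : ℝ)) := (Real.mul_self_sqrt (by positivity)).symm
    conv_lhs => rw [this]
    ring
  have h4 : ∑ f ∈ Icc F0 F1, (1 / (Nat.totient f : ℝ)) * PB X α S f ≤
      Real.sqrt SA * Real.sqrt SB := by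
    rw [h3, hSA', hSB, sum_sigma', sum_sigma', sum_sigma']
    exact Real.sum_mul_le_sqrt_mul_sqrt _ _ _
  refine h4.trans ?_
  exact mul_le_mul (Real.sqrt_le_sqrt hA) (Real.sqrt_le_sqrt hSB') (Real.sqrt_nonneg _)
    (Real.sqrt_nonneg _)

/-- the error term on average over `S` -/
theorem err_total (X F0 D : ℕ) (α : ℕ → ℝ) (S : Finset (ℤ × ℕ)) (hF0 : 1 ≤ F0)
    (hF0D : F0 ≤ D) (c : ℕ → ℝ) (K : ℝ) (hK : 0 ≤ K) (hc : ∀ d, |c d| ≤ K)
    (hsq : ∀ d, c d ≠ 0 → Squarefree d) (R : ℝ)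
    (hR : ∀ g : ℕ, 1 ≤ g → g ≤ D → ∑ b ∈ (Icc 1 X).filter (fun b => ¬ b.Coprime g), |α b| ≤ R) :
    |∑ d ∈ Icc 1 D, c d * ∑ P ∈ S.filter (fun P => (NN P).Coprime d), Ed X α d (rr d P)| ≤
      K * (Sc 1 D * (S.card * (∑ f ∈ Icc 2 F0, (1 / (Nat.totient f : ℝ)) * PA X α f + F0 * R) +
        Real.sqrt (12 * (1 + Real.log D) * (Real.sqrt (X * X) / F0 + (Real.sqrt X + Real.sqrt X) +
        D) * ∑ b ∈ Icc 1 X, α b ^ 2) * Real.sqrt (∑ f ∈ Icc (F0 + 1) D, (coin S f : ℝ)))) := by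
  classical
  have hD1 : 1 ≤ D := hF0.trans hF0D
  set G : ℕ → ℕ → ℝ := fun g f => (1 / (Nat.totient g : ℝ)) * ((1 / (Nat.totient f : ℝ)) *
    PB X (res g α) (S.filter (fun P => (NN P).Coprime g)) f) with hG
  have hG0 : ∀ g f, 0 ≤ G g f := fun g f =>
    mul_nonneg (by positivity) (mul_nonneg (by positivity) (PB_nonneg _ _ _ _))
  set M : Finset ℕ := (Icc 1 D).filter Squarefree with hM
  have s1 : |∑ d ∈ Icc 1 D, c d * ∑ P ∈ S.filter (fun P => (NN P).Coprime d),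
      Ed X α d (rr d P)| ≤
      K * ∑ d ∈ M, ∑ f ∈ d.divisors.filter (fun f => f ≠ 1), G (d / f) f := by
    have h1 : ∑ d ∈ Icc 1 D, c d * ∑ P ∈ S.filter (fun P => (NN P).Coprime d),
        Ed X α d (rr d P) =
        ∑ d ∈ M, c d * ∑ P ∈ S.filter (fun P => (NN P).Coprime d), Ed X α d (rr d P) := by
      rw [hM, sum_filter]
      apply sum_congr rfl
      intro d _
      split_ifs with h
      · rfl
      · have : c d = 0 := by
          by_contra hne
          exact h (hsq d hne)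
        rw [this, zero_mul]
    rw [h1, mul_sum]
    refine (abs_sum_le_sum_abs _ _).trans (sum_le_sum fun d hd => ?_)
    rw [hM, mem_filter, mem_Icc] at hd
    rw [abs_mul]
    apply mul_le_mul (hc d) _ (abs_nonneg _) hK
    refine (ed_sum X α S d (by omega)).trans (sum_le_sum fun f hf => ?_)
    rw [mem_filter, Nat.mem_divisors] at hf
    obtain ⟨⟨⟨g, rfl⟩, -⟩, hf1⟩ := hf
    have hf0 : 0 < f := Nat.pos_of_ne_zero (by rintro rfl; simp at hd)
    have hg0 : 0 < g := Nat.pos_of_ne_zero (by rintro rfl; simp at hd)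
    rw [Nat.mul_div_cancel_left g hf0]
    have hcop2 : f.Coprime g := Nat.coprime_of_squarefree_mul hd.2
    rw [Nat.totient_mul hcop2]
    apply le_of_eq
    simp only [hG]
    push_cast
    have htf : (0 : ℝ) < Nat.totient f := by exact_mod_cast Nat.totient_pos.mpr hf0
    have htg0 : (0 : ℝ) < Nat.totient g := by exact_mod_cast Nat.totient_pos.mpr hg0
    field_simp
  have s4 : ∑ d ∈ M, ∑ f ∈ d.divisors.filter (fun f => f ≠ 1), G (d / f) f ≤
      ∑ g ∈ M, ∑ f ∈ Icc 2 D, G g f := by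
    rw [sum_sigma', ← sum_product']
    have e6 : ∑ x ∈ M.sigma (fun m => m.divisors.filter (fun f => f ≠ 1)), G (x.1 / x.2) x.2 =
        ∑ p ∈ (M.sigma (fun m => m.divisors.filter (fun f => f ≠ 1))).image
          (fun x : (_ : ℕ) × ℕ => (x.1 / x.2, x.2)), G p.1 p.2 := by
      rw [sum_image]
      rintro ⟨m, f⟩ hx ⟨m', f'⟩ hx' heq
      simp only [Finset.mem_coe, mem_sigma, mem_filter, Nat.mem_divisors] at hx hx'
      simp only [Prod.mk.injEq] at heq
      obtain ⟨h7, h8⟩ := heq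
      subst h8
      have : m = m' := by
        rw [← Nat.div_mul_cancel hx.2.1.1, h7, Nat.div_mul_cancel hx'.2.1.1]
      subst this
      rfl
    rw [e6]
    apply sum_le_sum_of_subset_of_nonneg
    · intro p hp
      rw [mem_image] at hp
      obtain ⟨⟨m, f⟩, hx, rfl⟩ := hp
      simp only [mem_sigma, mem_filter, Nat.mem_divisors] at hx
      obtain ⟨hm, ⟨hfm, hm0⟩, hf1⟩ := hx
      rw [hM, mem_filter, mem_Icc] at hm
      have hf0 : 0 < f := Nat.pos_of_dvd_of_pos hfm hm.1.1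
      simp only [mem_product, mem_Icc, hM, mem_filter]
      refine ⟨⟨⟨Nat.div_pos (Nat.le_of_dvd hm.1.1 hfm) hf0, (Nat.div_le_self m f).trans hm.1.2⟩,
        ?_⟩, by omega, (Nat.le_of_dvd hm.1.1 hfm).trans hm.1.2⟩
      exact hm.2.squarefree_of_dvd (Nat.div_dvd_of_dvd hfm)
    · intro p _ _
      exact hG0 _ _
  set BVs : ℝ := ∑ f ∈ Icc 2 F0, (1 / (Nat.totient f : ℝ)) * PA X α f with hBVs
  set T2 : ℝ := Real.sqrt (12 * (1 + Real.log D) * (Real.sqrt (X * X) / F0 +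
    (Real.sqrt X + Real.sqrt X) + D) * ∑ b ∈ Icc 1 X, α b ^ 2) *
    Real.sqrt (∑ f ∈ Icc (F0 + 1) D, (coin S f : ℝ)) with hT2
  have s5 : ∀ g ∈ M, ∑ f ∈ Icc 2 D, G g f ≤ (1 / (Nat.totient g : ℝ)) *
      (S.card * (BVs + F0 * R) + T2) := by
    intro g hg
    rw [hM, mem_filter, mem_Icc] at hg
    rw [hG, ← mul_sum]
    apply mul_le_mul_of_nonneg_left _ (by positivity)
    set Sg := S.filter (fun P => (NN P).Coprime g) with hSg
    have hSgS : Sg ⊆ S := filter_subset _ _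
    have hcardg : (Sg.card : ℝ) ≤ S.card := by exact_mod_cast card_le_card hSgS
    have hsplit : Icc 2 D ⊆ Icc 2 F0 ∪ Icc (F0 + 1) D := by
      intro f hf
      rw [mem_Icc] at hf
      rw [mem_union, mem_Icc, mem_Icc]
      omega
    have hnn : ∀ f, 0 ≤ (1 / (Nat.totient f : ℝ)) * PB X (res g α) Sg f :=
      fun f => mul_nonneg (by positivity) (PB_nonneg _ _ _ _)
    have u1 : ∑ f ∈ Icc 2 D, (1 / (Nat.totient f : ℝ)) * PB X (res g α) Sg f ≤
        ∑ f ∈ Icc 2 F0, (1 / (Nat.totient f : ℝ)) * PB X (res g α) Sg f +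
        ∑ f ∈ Icc (F0 + 1) D, (1 / (Nat.totient f : ℝ)) * PB X (res g α) Sg f := by
      refine (sum_le_sum_of_subset_of_nonneg hsplit (fun f _ _ => hnn f)).trans ?_
      rw [← sum_union_inter]
      have : 0 ≤ ∑ f ∈ Icc 2 F0 ∩ Icc (F0 + 1) D,
        (1 / (Nat.totient f : ℝ)) * PB X (res g α) Sg f :=
        sum_nonneg fun f _ => hnn f
      linarith
    have u2 : ∑ f ∈ Icc 2 F0, (1 / (Nat.totient f : ℝ)) * PB X (res g α) Sg f ≤
        S.card * (BVs + F0 * R) := by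
      have v1 : ∀ f ∈ Icc 2 F0, (1 / (Nat.totient f : ℝ)) *
          PB X (res g α) Sg f ≤
          S.card * ((1 / (Nat.totient f : ℝ)) * PA X α f + R) := by
        intro f hf
        rw [mem_Icc] at hf
        have htf : (0 : ℝ) < Nat.totient f := by
          exact_mod_cast Nat.totient_pos.mpr (by omega)
        have hR0 : 0 ≤ R := (sum_nonneg fun b _ => abs_nonneg _).trans (hR g hg.1.1 hg.1.2)
        have v2 : PB X (res g α) Sg f ≤ S.card * (PA X α f + Nat.totient f * R) := by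
          unfold PB PA
          calc ∑ ψ ∈ (univ : Finset (DirichletCharacter ℂ f)).filter (fun χ => χ.IsPrimitive),
              ‖A X (res g α) f ψ‖ * ‖BB Sg f ψ‖ ≤
              ∑ ψ ∈ (univ : Finset (DirichletCharacter ℂ f)).filter (fun χ => χ.IsPrimitive),
              (‖A X α f ψ‖ + R) * S.card := by
                apply sum_le_sum
                intro ψ _
                apply mul_le_mul _ ((BB_le_card Sg f ψ).trans hcardg) (norm_nonneg _)
                  (by positivity)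
                exact (A_res_le X g f α ψ).trans (add_le_add le_rfl (hR g hg.1.1 hg.1.2))
            _ = S.card * (∑ ψ ∈ (univ : Finset (DirichletCharacter ℂ f)).filter
                (fun χ => χ.IsPrimitive), ‖A X α f ψ‖ +
                (((univ : Finset (DirichletCharacter ℂ f)).filter
                (fun χ => χ.IsPrimitive)).card : ℝ) * R) := by
                rw [← sum_mul, sum_add_distrib, sum_const, nsmul_eq_mul]
                ring
            _ ≤ _ := by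
                apply mul_le_mul_of_nonneg_left _ (by positivity)
                apply add_le_add le_rfl
                apply mul_le_mul_of_nonneg_right _ hR0
                exact card_prim f (by omega)
        calc (1 / (Nat.totient f : ℝ)) * PB X (res g α) Sg f ≤
            (1 / (Nat.totient f : ℝ)) * (S.card * (PA X α f + Nat.totient f * R)) :=
              mul_le_mul_of_nonneg_left v2 (by positivity)
          _ = S.card * ((1 / (Nat.totient f : ℝ)) * PA X α f + R) := by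
              field_simp
      refine (sum_le_sum v1).trans ?_
      rw [← mul_sum, sum_add_distrib, sum_const, nsmul_eq_mul, Nat.card_Icc]
      apply mul_le_mul_of_nonneg_left _ (by positivity)
      apply add_le_add le_rfl
      have hR0 : 0 ≤ R := (sum_nonneg fun b _ => abs_nonneg _).trans (hR g hg.1.1 hg.1.2)
      apply mul_le_mul_of_nonneg_right _ hR0
      have : F0 + 1 - 2 ≤ F0 := by omega
      exact_mod_cast this
    have u3 : ∑ f ∈ Icc (F0 + 1) D, (1 / (Nat.totient f : ℝ)) *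
        PB X (res g α) Sg f ≤ T2 := by
      refine (large_f X (res g α) Sg (F0 + 1) D (by omega) hD1).trans ?_
      rw [hT2]
      have hlogD : 0 ≤ Real.log D := Real.log_natCast_nonneg D
      have w1 : ∑ b ∈ Icc 1 X, res g α b ^ 2 ≤ ∑ b ∈ Icc 1 X, α b ^ 2 := by
        apply sum_le_sum
        intro b _
        unfold res
        split_ifs
        · exact le_rfl
        · rw [zero_pow two_ne_zero]; exact sq_nonneg _
      have w2 : Real.sqrt (∑ f ∈ Icc (F0 + 1) D, (coin Sg f : ℝ)) ≤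
          Real.sqrt (∑ f ∈ Icc (F0 + 1) D, (coin S f : ℝ)) := by
        apply Real.sqrt_le_sqrt
        apply sum_le_sum
        intro f _
        exact_mod_cast coin_mono hSgS f
      have w3 : Real.sqrt (X * X) / ((F0 + 1 : ℕ) : ℝ) ≤ Real.sqrt (X * X) / F0 := by
        apply div_le_div_of_nonneg_left (Real.sqrt_nonneg _) (by exact_mod_cast hF0)
        push_cast
        linarith
      apply mul_le_mul _ w2 (Real.sqrt_nonneg _) (Real.sqrt_nonneg _)
      apply Real.sqrt_le_sqrt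
      apply mul_le_mul _ w1 (sum_nonneg fun b _ => sq_nonneg _) (by positivity)
      apply mul_le_mul_of_nonneg_left _ (by positivity)
      linarith
    linarith
  refine s1.trans (mul_le_mul_of_nonneg_left ?_ hK)
  refine s4.trans ((sum_le_sum s5).trans ?_)
  rw [← sum_mul]
  have s6 : ∑ g ∈ M, (1 / (Nat.totient g : ℝ)) = Sc 1 D := by
    unfold Sc
    rw [hM]
    apply sum_congr rfl
    intro g _
    rw [one_pow]
  rw [s6]

end Pool.Agent.H570.PR
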