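import Pool.Agent.H570.PR.Low
import Pool.Graph.R_seed8.Y882.Fin

/-! Pairs `(a, d)` for which few primes `q` make `|a + q d|` free of small prime factors. -/

set_option autoImplicit false

open Finset Filter Topology

namespace Pool.Agent.H570.PR

open Pool.Agent.Y882 hiding TT cnt TT_le lowT ed_sum err_total cnt_mono dyadic
open Pool.Agent.H410R2
open Pool.Agent.Helper112 Pool.Agent.Helper112.BLB
open Pool.Agent.H732R2.B2 (Sc)

theorem cnt_mono (x w w' : ℝ) (h : w ≤ w') (P : ℤ × ℕ) : cnt x w' P ≤ cnt x w P := by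
  classical
  unfold cnt
  apply card_le_card
  intro p hp
  rw [mem_filter] at hp ⊢
  exact ⟨hp.1, hp.2.1, hp.2.2.1, hp.2.2.2.1, fun q hq hqn => h.trans (hp.2.2.2.2 q hq hqn)⟩

theorem arith1 {s K Q E T c1 G W : ℝ} (hs : 0 ≤ s) (h1 : -(K * (Q * (s * E + T))) ≤ W)
    (h2 : W ≤ s * (-(c1 * 5 / 200 * G))) (h3 : K * (Q * E) ≤ c1 / 100 * G) :
    s * (c1 * 3 / 200 * G) ≤ K * (Q * T) := by
  have h4 := mul_le_mul_of_nonneg_left h3 hs
  linarith

theorem concl (x L s U c1 Cd μ ε : ℝ) (hx : 1 ≤ x) (hL : 1 ≤ L) (hs : 0 ≤ s) (hU : 0 < U)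
    (hc1 : 0 < c1) (hCd : 0 < Cd)
    (h : s * (c1 * 3 / 200 * (x / L)) ≤ U * L ^ 3 * ((14 * L ^ 2 * x ^ ((1 + μ) / 2)) *
      (x ^ (μ / 2) * √s + (Cd + 1) * x ^ ((1 - μ) / 8) * s)))
    (h8 : 400 / c1 * (20 * U * (Cd + 1)) * L ^ 6 ≤ x ^ (3 * (1 - μ) / 8))
    (h9 : 400 / c1 * (20 * U) * L ^ 6 ≤ x ^ (ε / 8)) : s ≤ x ^ (ε / 4 + (2 * μ - 1)) := by
  have hx0 : 0 < x := by linarith
  have hL0 : 0 < L := by linarith
  rcases hs.eq_or_lt with h0 | h0
  · rw [← h0]; positivity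
  set r := √s with hr
  have hr0 : 0 < r := Real.sqrt_pos.2 h0
  have hrr : r * r = s := Real.mul_self_sqrt hs
  -- multiply by L
  have e1 : s * (c1 * 3 / 200 * x) ≤ U * L ^ 4 * ((14 * L ^ 2 * x ^ ((1 + μ) / 2)) *
      (x ^ (μ / 2) * r + (Cd + 1) * x ^ ((1 - μ) / 8) * s)) := by
    have := mul_le_mul_of_nonneg_right h hL0.le
    calc s * (c1 * 3 / 200 * x) = s * (c1 * 3 / 200 * (x / L)) * L := by field_simp
      _ ≤ _ := this
      _ = _ := by ring
  have e2 : U * L ^ 4 * ((14 * L ^ 2 * x ^ ((1 + μ) / 2)) * ((Cd + 1) * x ^ ((1 - μ) / 8) * s)) ≤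
      s * (c1 * 1 / 200 * x) := by
    have h10 : x = x ^ ((1 + μ) / 2) * x ^ ((1 - μ) / 8) * x ^ (3 * (1 - μ) / 8) := by
      rw [← Real.rpow_add hx0, ← Real.rpow_add hx0]
      have : (1 + μ) / 2 + (1 - μ) / 8 + 3 * (1 - μ) / 8 = 1 := by ring
      rw [this, Real.rpow_one]
    have h11 : 14 * U * (Cd + 1) * L ^ 6 ≤ c1 / 200 * x ^ (3 * (1 - μ) / 8) := by
      have h12 := mul_le_mul_of_nonneg_left h8 (show 0 ≤ c1 / 400 by positivity)
      have h13 : c1 / 400 * (400 / c1 * (20 * U * (Cd + 1)) * L ^ 6) =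
          20 * U * (Cd + 1) * L ^ 6 := by field_simp
      rw [h13] at h12
      have h14 : 0 ≤ U * (Cd + 1) * L ^ 6 := by positivity
      have h15 : 0 ≤ c1 / 400 * x ^ (3 * (1 - μ) / 8) := by positivity
      linarith
    calc U * L ^ 4 * ((14 * L ^ 2 * x ^ ((1 + μ) / 2)) * ((Cd + 1) * x ^ ((1 - μ) / 8) * s)) =
        (14 * U * (Cd + 1) * L ^ 6) * (x ^ ((1 + μ) / 2) * x ^ ((1 - μ) / 8) * s) := by ring
      _ ≤ (c1 / 200 * x ^ (3 * (1 - μ) / 8)) * (x ^ ((1 + μ) / 2) * x ^ ((1 - μ) / 8) * s) :=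
          mul_le_mul_of_nonneg_right h11 (by positivity)
      _ = s * (c1 * 1 / 200 * (x ^ ((1 + μ) / 2) * x ^ ((1 - μ) / 8) * x ^ (3 * (1 - μ) / 8))) := by
          ring
      _ = _ := by rw [← h10]
  have e3 : s * (c1 / 100 * x) ≤ U * L ^ 4 * ((14 * L ^ 2 * x ^ ((1 + μ) / 2)) *
      (x ^ (μ / 2) * r)) := by
    have h10 : U * L ^ 4 * ((14 * L ^ 2 * x ^ ((1 + μ) / 2)) *
      (x ^ (μ / 2) * r + (Cd + 1) * x ^ ((1 - μ) / 8) * s)) = U * L ^ 4 *
      ((14 * L ^ 2 * x ^ ((1 + μ) / 2)) * (x ^ (μ / 2) * r)) +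
      U * L ^ 4 * ((14 * L ^ 2 * x ^ ((1 + μ) / 2)) * ((Cd + 1) * x ^ ((1 - μ) / 8) * s)) := by ring
    rw [h10] at e1
    linarith
  have e4 : r ≤ x ^ (ε / 8 + (μ - 1 / 2)) := by
    have h10 : 14 * U * L ^ 6 ≤ c1 / 100 * x ^ (ε / 8) := by
      have h12 := mul_le_mul_of_nonneg_left h9 (show 0 ≤ c1 / 400 by positivity)
      have h13 : c1 / 400 * (400 / c1 * (20 * U) * L ^ 6) =
          20 * U * L ^ 6 := by field_simp
      rw [h13] at h12
      have h14 : 0 ≤ U * L ^ 6 := by positivity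
      have h15 : 0 ≤ c1 / 400 * x ^ (ε / 8) := by positivity
      linarith
    have h11 : r * (c1 / 100 * x * r) ≤ x ^ (ε / 8 + (μ - 1 / 2)) * (c1 / 100 * x * r) := by
      calc r * (c1 / 100 * x * r) = (r * r) * (c1 / 100 * x) := by ring
        _ = s * (c1 / 100 * x) := by rw [hrr]
        _ ≤ _ := e3
        _ = (14 * U * L ^ 6) * (x ^ ((1 + μ) / 2) * x ^ (μ / 2) * r) := by ring
        _ ≤ (c1 / 100 * x ^ (ε / 8)) * (x ^ ((1 + μ) / 2) * x ^ (μ / 2) * r) :=
            mul_le_mul_of_nonneg_right h10 (by positivity)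
        _ = (x ^ (ε / 8) * x ^ (((1 + μ) / 2) + (μ / 2))) * (c1 / 100 * r) := by
            rw [Real.rpow_add hx0 ((1 + μ) / 2)]; ring
        _ = (x ^ (ε / 8) * (x ^ (μ - 1 / 2) * x)) * (c1 / 100 * r) := by
            congr 2
            rw [← Real.rpow_add_one hx0.ne']
            congr 1
            ring
        _ = x ^ (ε / 8 + (μ - 1 / 2)) * (c1 / 100 * x * r) := by
            rw [Real.rpow_add hx0 (ε / 8)]; ring
    exact le_of_mul_le_mul_right h11 (by positivity)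
  calc s = r * r := hrr.symm
    _ ≤ x ^ (ε / 8 + (μ - 1 / 2)) * x ^ (ε / 8 + (μ - 1 / 2)) :=
        mul_le_mul e4 e4 hr0.le (by positivity)
    _ = x ^ (ε / 4 + (2 * μ - 1)) := by
        rw [← Real.rpow_add hx0]
        congr 1
        ring

/-- the size of the large sieve factor -/
theorem lsf (X F0 : ℕ) (D x κ μ : ℝ) (hx : x = X) (hx2 : 2 ≤ x) (hκ : κ < 1 / 2)
    (hF01 : 1 ≤ F0) (hF0 : F0 = ⌊(x / 2) ^ (1 / 2 - κ)⌋₊) (hμ : 1 / 2 + κ ≤ μ) (hκ0 : 0 < κ)
    (hD : D ≤ x ^ μ) :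
    Real.sqrt (X * X) / F0 + (Real.sqrt X + Real.sqrt X) + D ≤ 8 * x ^ μ := by
  have hx0 : 0 < x := by linarith
  have hx1 : 1 ≤ x := by linarith
  rw [← hx]
  have h1 : √(x * x) = x := Real.sqrt_mul_self hx0.le
  rw [h1]
  have h2 : (x / 2) ^ (1 / 2 - κ) / 2 ≤ F0 := by
    have h3 : (x / 2) ^ (1 / 2 - κ) < F0 + 1 := by rw [hF0]; exact Nat.lt_floor_add_one _
    have h4 : (1 : ℝ) ≤ F0 := by exact_mod_cast hF01
    linarith
  have hF0r : (0 : ℝ) < F0 := by
    have : 0 < F0 := hF01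
    exact_mod_cast this
  have h3 : x / F0 ≤ 4 * x ^ μ := by
    rw [div_le_iff₀ hF0r]
    calc x = 2 * (x / 2) ^ (1 : ℝ) := by rw [Real.rpow_one]; ring
      _ = 2 * ((x / 2) ^ (1 / 2 + κ) * (x / 2) ^ (1 / 2 - κ)) := by
          rw [← Real.rpow_add (by positivity)]
          congr 2
          ring
      _ ≤ 2 * (x ^ μ * (x / 2) ^ (1 / 2 - κ)) := by
          apply mul_le_mul_of_nonneg_left _ (by norm_num)
          apply mul_le_mul_of_nonneg_right _ (by positivity)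
          calc (x / 2) ^ (1 / 2 + κ) ≤ x ^ (1 / 2 + κ) :=
                Real.rpow_le_rpow (by positivity) (by linarith) (by linarith)
            _ ≤ x ^ μ := Real.rpow_le_rpow_of_exponent_le hx1 hμ
      _ = 4 * x ^ μ * ((x / 2) ^ (1 / 2 - κ) / 2) := by ring
      _ ≤ 4 * x ^ μ * F0 := mul_le_mul_of_nonneg_left h2 (by positivity)
  have h4 : √x ≤ x ^ μ := by
    rw [Real.sqrt_eq_rpow]
    exact Real.rpow_le_rpow_of_exponent_le hx1 (by linarith)
  have h5 : 0 ≤ x ^ μ := by positivity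
  linarith

/-- the bound for the large conductors -/
theorem TL_bound (x L lD V s2 T D s B μ : ℝ) (hx : 1 ≤ x) (hL : 1 ≤ L) (hlD : lD ≤ L)
    (hlD0 : 0 ≤ lD) (hV : V ≤ 8 * x ^ μ) (hV0 : 0 ≤ V) (hs2 : s2 ≤ x * L ^ 2) (hs20 : 0 ≤ s2)
    (hT : T ≤ D * s + B * s ^ 2) (hs : 0 ≤ s) (hD : D ≤ x ^ μ) (hD0 : 0 ≤ D) (hB0 : 0 ≤ B) :
    √(12 * (1 + lD) * V * s2) * √T ≤
      (14 * L ^ 2 * x ^ ((1 + μ) / 2)) * (x ^ (μ / 2) * √s + √B * s) := by
  have hx0 : 0 < x := by linarith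
  have h1 : √(12 * (1 + lD) * V * s2) ≤ 14 * L ^ 2 * x ^ ((1 + μ) / 2) := by
    rw [Real.sqrt_le_left (by positivity)]
    calc 12 * (1 + lD) * V * s2 ≤ 12 * (2 * L) * (8 * x ^ μ) * (x * L ^ 2) := by
          have : 1 + lD ≤ 2 * L := by linarith
          gcongr
      _ = 192 * L ^ 3 * (x ^ μ * x) := by ring
      _ ≤ 196 * L ^ 4 * (x ^ μ * x) := by
          apply mul_le_mul_of_nonneg_right _ (by positivity)
          have h2 : L ^ 3 ≤ L ^ 4 := pow_le_pow_right₀ hL (by norm_num)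
          have h3 : 0 ≤ L ^ 3 := by positivity
          linarith
      _ = (14 * L ^ 2 * x ^ ((1 + μ) / 2)) ^ 2 := by
          have h2 : x ^ μ * x = (x ^ ((1 + μ) / 2)) ^ 2 := by
            rw [← Real.rpow_add_one hx0.ne', ← Real.rpow_natCast, ← Real.rpow_mul hx0.le]
            congr 1
            push_cast
            ring
          rw [h2]
          ring
  have h2 : √T ≤ x ^ (μ / 2) * √s + √B * s := by
    rw [Real.sqrt_le_left (by positivity)]
    have e1 : √s ^ 2 = s := Real.sq_sqrt hs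
    have e2 : √B ^ 2 = B := Real.sq_sqrt hB0
    have e3 : (x ^ (μ / 2)) ^ 2 = x ^ μ := by
      rw [← Real.rpow_natCast, ← Real.rpow_mul hx0.le]
      congr 1
      push_cast
      ring
    have e4 : 0 ≤ 2 * (x ^ (μ / 2) * √s) * (√B * s) := by positivity
    calc T ≤ D * s + B * s ^ 2 := hT
      _ ≤ x ^ μ * s + B * s ^ 2 := by gcongr
      _ = (x ^ (μ / 2)) ^ 2 * √s ^ 2 + √B ^ 2 * s ^ 2 := by rw [e1, e2, e3]
      _ ≤ _ := by linarith
  exact mul_le_mul h1 h2 (Real.sqrt_nonneg _) (by positivity)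

theorem main (A : ℕ) (u ε : ℝ) (hu : 0 < u) (hu2 : u < 1 / 2) (hε : 0 < ε) :
    ∃ δ : ℝ, 0 < δ ∧ ∃ X0 : ℕ, ∀ X : ℕ, X0 ≤ X → ∀ S : Finset (ℤ × ℕ),
      (∀ P ∈ S, P.1 ≠ 0 ∧ P.1.natAbs ≤ X ^ A ∧ 1 ≤ P.2 ∧ P.2 ≤ X ^ A ∧ Int.gcd P.1 P.2 = 1 ∧
        Even (NN P) ∧ (cnt (X : ℝ) (2 * (X : ℝ) ^ u) P : ℝ) <
          δ * X / Real.log X ^ 2 * sgs (NN P)) →
      (S.card : ℝ) ≤ (X : ℝ) ^ (max 0 (4 * u - 1) + ε) ∧ (u < 1 / 4 → S = ∅) := by
  classical
  -- parameters
  set κ4 : ℝ := if u < 1 / 4 then (1 / 4 - u) / 8 else 1 with hκ4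
  have hκ40 : 0 < κ4 := by
    rw [hκ4]
    split_ifs with h
    · linarith
    · exact one_pos
  set κ : ℝ := min (ε / 64) (min ((1 / 2 - u) / 8) κ4) with hκ
  have hκ0 : 0 < κ := lt_min (by linarith) (lt_min (by linarith) hκ40)
  have hκε : κ ≤ ε / 64 := min_le_left _ _
  have hκu : κ ≤ (1 / 2 - u) / 8 := (min_le_right _ _).trans (min_le_left _ _)
  have hκ44 : κ ≤ κ4 := (min_le_right _ _).trans (min_le_right _ _)
  set ζ : ℝ := u + κ with hζ
  set τ : ℝ := 2 * ζ + κ with hτ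
  set τ' : ℝ := τ + κ with hτ'
  have hζ0 : 0 < ζ := by linarith
  have hτ'0 : 0 < τ' := by linarith
  have hτ'1 : τ' < 1 := by rw [hτ', hτ, hζ]; linarith
  set k : ℕ := 2 * A + 1 with hk
  have hk1 : (1 : ℝ) ≤ k := by rw [hk]; push_cast; linarith [(Nat.cast_nonneg A : (0 : ℝ) ≤ A)]
  have hk0 : (0 : ℝ) < k := by linarith
  set μ : ℝ := max (1 / 2 + κ) τ' with hμ
  have hμ1 : μ < 1 := max_lt (by linarith) hτ'1
  have hμ2 : 1 / 2 < μ := lt_of_lt_of_le (by linarith) (le_max_left _ _)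
  have hμτ : τ' ≤ μ := le_max_right _ _
  set κ3 : ℝ := (1 - μ) / 4 with hκ3
  have hκ30 : 0 < κ3 := by rw [hκ3]; linarith
  have hκ32 : κ3 ≤ 1 / 2 := by rw [hκ3]; linarith
  obtain ⟨c0, hc0, Y1, HW⟩ := wts (τ / k) (ζ / k) (τ' / k) (by positivity)
    (by rw [← mul_div_assoc]; exact div_lt_div_of_pos_right (by linarith) hk0)
    (by rw [← mul_div_assoc]; exact div_le_div_of_nonneg_right (by linarith) hk0.le)
    (by rw [div_le_one hk0]; linarith)
    (div_lt_div_of_pos_right (by linarith) hk0)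
  obtain ⟨CS, hCS, HSc⟩ := Pool.Agent.H732R2.B2.Sc_bound 1 zero_le_one
  obtain ⟨Cd, hCd, HCd⟩ := Pool.Agent.Helper112.divisor_bound (κ3 / (k + 1)) (by positivity)
  obtain ⟨X1, HBV⟩ := eventually_atTop.1 (bv_al bv_true κ hκ0 5)
  obtain ⟨X2, HM⟩ := eventually_atTop.1 mass
  set c1 : ℝ := c0 / k with hc1
  have hc10 : 0 < c1 := by positivity
  have ev0 : ∀ᶠ X : ℕ in atTop, max (max X1 X2) 16 ≤ (X : ℝ) :=
    tendsto_natCast_atTop_atTop.eventually (eventually_ge_atTop _)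
  have ev1 : ∀ᶠ X : ℕ in atTop, (2 : ℝ) ≤ (X : ℝ) ^ κ :=
    tendsto_natCast_atTop_atTop.eventually ((tendsto_rpow_atTop hκ0).eventually_ge_atTop _)
  have ev2 : ∀ᶠ X : ℕ in atTop, max (200 * (640 * k * CS) / c1) 2 ≤ Real.log X :=
    tendsto_natCast_atTop_atTop.eventually (Real.tendsto_log_atTop.eventually_ge_atTop _)
  have ev3 := polylog (400 / c1) 2 (1 / 2) (by norm_num)
  have ev4 := polylog (400 / c1 * (10 * k * CS)) 7 (1 / 2) (by norm_num)
  have ev5 := polylog (400 / c1 * (10 * k ^ 2 * Cd)) 5 (1 / 2) (by norm_num)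
  have ev6 := polylog (2000 * k * CS / c1) 7 (1 / 2) (by norm_num)
  have ev7 := polylog (1000 * k / c1) 3 (1 - μ) (by linarith)
  have ev8 := polylog (400 / c1 * (100 * k * CS * (Cd + 1))) 6 (3 * (1 - μ) / 8) (by linarith)
  have ev9 := polylog (400 / c1 * (100 * k * CS)) 6 (ε / 8) (by linarith)
  obtain ⟨X3, HX3⟩ := eventually_atTop.1 (ev0.and (ev1.and (ev2.and (ev3.and (ev4.and (ev5.and
    (ev6.and (ev7.and (ev8.and (ev9.and (eventually_ge_atTop 3)))))))))))
  refine ⟨c1 / 100, by positivity, max Y1 X3, ?_⟩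
  intro X hX S hS
  obtain ⟨f0, f1, f2, f3, f4, f5, f6, f7, f8, f9, f10⟩ := HX3 X ((le_max_right _ _).trans hX)
  have hXr : (3 : ℝ) ≤ X := by exact_mod_cast f10
  have hX1 : (1 : ℝ) ≤ X := by linarith
  have hX0 : (0 : ℝ) < X := by linarith
  have hXk : X ≤ X ^ k := Nat.le_self_pow (by omega) X
  obtain ⟨c, w1, w2, w3, w4⟩ := HW (X ^ k) ((le_max_left _ _).trans (hX.trans hXk))
  set L : ℝ := Real.log X with hL
  have hlogk : Real.log ((X ^ k : ℕ) : ℝ) = k * L := by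
    push_cast
    rw [Real.log_pow]
  have hpowk : ∀ t : ℝ, ((X ^ k : ℕ) : ℝ) ^ (t / k) = (X : ℝ) ^ t := by
    intro t
    push_cast
    rw [← Real.rpow_natCast, ← Real.rpow_mul hX0.le]
    congr 1
    field_simp
  rw [hlogk] at w1 w4
  rw [hpowk] at w2 w3 w4
  have hL2 : 2 ≤ L := (le_max_right _ _).trans f2
  have hL0 : 0 < L := by linarith
  have hL1 : 1 ≤ L := by linarith
  set x : ℝ := (X : ℝ) with hx
  have hfl : ⌊x⌋₊ = X := Nat.floor_natCast X
  have hx16 : 16 ≤ x := (le_max_right _ _).trans f0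
  have hxX1 : X1 ≤ x := ((le_max_left _ _).trans (le_max_left _ _)).trans f0
  have hxX2 : X2 ≤ x := ((le_max_right _ _).trans (le_max_left _ _)).trans f0
  set M := ∑ m ∈ Icc 1 X, al x m with hMdef
  have hM : x / 20 ≤ M := by
    have := HM x hxX2
    rwa [hfl] at this
  have hsx : √x * √x = x := Real.mul_self_sqrt hX0.le
  have hsx0 : 0 < √x := Real.sqrt_pos.2 hX0
  have hsx1 : (1 : ℝ) ≤ √x := by
    rw [Real.one_le_sqrt]; exact hX1
  have hsr : √x = x ^ ((1 : ℝ) / 2) := Real.sqrt_eq_rpow x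
  -- the levels
  set F0 : ℕ := ⌊(x / 2) ^ (1 / 2 - κ)⌋₊ with hF0
  set D0 : ℕ := ⌊x ^ τ'⌋₊ with hD0
  set D : ℕ := max D0 F0 with hD
  have hF0D : F0 ≤ D := le_max_right _ _
  have hF01 : 1 ≤ F0 := by
    apply Nat.le_floor
    push_cast
    exact Real.one_le_rpow (by linarith) (by linarith)
  have hF0le : (F0 : ℝ) ≤ (x / 2) ^ (1 / 2 - κ) := Nat.floor_le (by positivity)
  have hF0x : (F0 : ℝ) ≤ √x := by
    rw [Real.sqrt_eq_rpow]
    refine hF0le.trans ?_
    calc (x / 2) ^ (1 / 2 - κ) ≤ (x / 2) ^ ((1 : ℝ) / 2) :=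
          Real.rpow_le_rpow_of_exponent_le (by linarith) (by linarith)
      _ ≤ x ^ ((1 : ℝ) / 2) := Real.rpow_le_rpow (by positivity) (by linarith) (by norm_num)
  have hD0le : (D0 : ℝ) ≤ x ^ τ' := Nat.floor_le (by positivity)
  have hsxμ : √x ≤ x ^ μ := by
    rw [hsr]
    exact Real.rpow_le_rpow_of_exponent_le hX1 hμ2.le
  have hDμ : (D : ℝ) ≤ x ^ μ := by
    rw [hD]
    push_cast
    apply max_le
    · exact hD0le.trans (Real.rpow_le_rpow_of_exponent_le hX1 hμτ)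
    · exact hF0x.trans hsxμ
  have hxμ1 : x ^ μ ≤ x := by
    calc x ^ μ ≤ x ^ (1 : ℝ) := Real.rpow_le_rpow_of_exponent_le hX1 hμ1.le
      _ = x := Real.rpow_one _
  have hDX : (D : ℝ) ≤ x := hDμ.trans hxμ1
  have hD1 : 1 ≤ D := hF01.trans hF0D
  have hlD : Real.log D ≤ L := Real.log_le_log (by exact_mod_cast hD1) hDX
  have hlD0 : 0 ≤ Real.log D := Real.log_natCast_nonneg D
  -- the sum of 1 / φ
  have hSc : Sc 1 D ≤ CS * L ^ 2 := by
    have h1 : Sc 1 D ≤ Sc 1 (max D 3) :=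
      Pool.Agent.H732R2.B2.Sc_mono 1 zero_le_one (le_max_left _ _)
    refine h1.trans ((HSc _ (le_max_right _ _)).trans ?_)
    apply mul_le_mul_of_nonneg_left _ hCS.le
    have h2 : (2 * (1 : ℝ)) = ((2 : ℕ) : ℝ) := by norm_num
    rw [h2, Real.rpow_natCast]
    apply pow_le_pow_left₀ (Real.log_natCast_nonneg _)
    apply Real.log_le_log
    · have : 0 < max D 3 := lt_of_lt_of_le (by norm_num) (le_max_right _ _)
      exact_mod_cast this
    · have hDX' : D ≤ X := by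
        rw [hx] at hDX
        exact_mod_cast hDX
      have : max D 3 ≤ X := max_le hDX' f10
      exact_mod_cast this
  have hSc0 : 0 ≤ Sc 1 D := by unfold Sc; positivity
  -- bounds for the noncoprime terms
  set R : ℝ := 2 * L ^ 3 with hR
  have hRb : ∀ g : ℕ, 1 ≤ g → g ≤ D →
      ∑ b ∈ (Icc 1 X).filter (fun b => ¬ b.Coprime g), |al x b| ≤ R := by
    intro g hg1 hgD
    have h0 := al_noncop x hX1 g hg1
    rw [hfl] at h0
    refine h0.trans ?_
    have h1 : Real.log g ≤ L := (Real.log_le_log (by exact_mod_cast hg1)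
      (by exact_mod_cast hgD)).trans hlD
    have h2 : 0 ≤ Real.log g := Real.log_natCast_nonneg g
    calc 2 * Real.log g * Real.log x ^ 2 ≤ 2 * L * L ^ 2 := by gcongr
      _ = R := by rw [hR]; ring
  set R' : ℝ := 2 * k * L ^ 3 with hR'
  have hRb' : ∀ P ∈ S, ∑ b ∈ (Icc 1 X).filter (fun b => ¬ b.Coprime P.1.natAbs), |al x b| ≤ R' := by
    intro P hP
    obtain ⟨h1, h2, -⟩ := hS P hP
    have hpos : 1 ≤ P.1.natAbs := Int.natAbs_pos.2 h1
    have h0 := al_noncop x hX1 P.1.natAbs hpos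
    rw [hfl] at h0
    refine h0.trans ?_
    have h3 : Real.log P.1.natAbs ≤ k * L := by
      rw [← hlogk]
      apply Real.log_le_log (by exact_mod_cast hpos)
      have h4 : P.1.natAbs ≤ X ^ k := h2.trans (Nat.pow_le_pow_right (by omega) (by omega))
      exact_mod_cast h4
    have h4 : 0 ≤ Real.log P.1.natAbs := Real.log_natCast_nonneg _
    calc 2 * Real.log P.1.natAbs * Real.log x ^ 2 ≤ 2 * (k * L) * L ^ 2 := by gcongr
      _ = R' := by rw [hR']; ring
  set B : ℝ := Cd * x ^ κ3 with hB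
  have hB0 : 0 < B := by positivity
  have hBdiv : ∀ N : ℕ, 1 ≤ N → N ≤ X ^ (k + 1) → (N.divisors.card : ℝ) ≤ B := by
    intro N hN1 hN2
    refine (HCd N hN1).trans ?_
    rw [hB]
    apply mul_le_mul_of_nonneg_left _ hCd.le
    have h3 : (N : ℝ) ≤ x ^ ((k : ℝ) + 1) := by
      have h4 : (N : ℝ) ≤ ((X ^ (k + 1) : ℕ) : ℝ) := by exact_mod_cast hN2
      refine h4.trans (le_of_eq ?_)
      push_cast
      rw [← Real.rpow_natCast]
      push_cast
      rfl
    calc (N : ℝ) ^ (κ3 / (k + 1)) ≤ (x ^ ((k : ℝ) + 1)) ^ (κ3 / (k + 1)) :=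
          Real.rpow_le_rpow (by positivity) h3 (by positivity)
      _ = x ^ κ3 := by
          rw [← Real.rpow_mul hX0.le]
          congr 1
          field_simp
  have hXA : ∀ j : ℕ, X ^ j * 1 ≤ X ^ j * X := fun j => Nat.mul_le_mul_left _ (by omega)
  have hsize : ∀ P ∈ S, P.1.natAbs + X * P.2 ≤ X ^ (k + 1) := by
    intro P hP
    obtain ⟨-, h2, -, h4, -⟩ := hS P hP
    have h5 : X ^ A + X * X ^ A ≤ X ^ (k + 1) := by
      have h6 : X ^ A ≤ X * X ^ A := Nat.le_mul_of_pos_left _ (by omega)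
      calc X ^ A + X * X ^ A ≤ X * X ^ A + X * X ^ A := by omega
        _ = 2 * (X * X ^ A) := by ring
        _ ≤ X * (X * X ^ A) := Nat.mul_le_mul_right _ (by omega)
        _ = X ^ (A + 2) := by ring
        _ ≤ X ^ (k + 1) := by
            rcases Nat.eq_zero_or_pos A with h7 | h7
            · rw [hk, h7]
            · exact Nat.pow_le_pow_right (by omega) (by omega)
    calc P.1.natAbs + X * P.2 ≤ X ^ A + X * X ^ A :=
          Nat.add_le_add h2 (Nat.mul_le_mul_left _ h4)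
      _ ≤ _ := h5
  -- sizes
  set G : ℝ := x / L with hG
  have hG0 : 0 < G := by positivity
  have hxκ3 : x ^ κ3 ≤ √x := by
    rw [hsr]
    exact Real.rpow_le_rpow_of_exponent_le hX1 hκ32
  set K : ℝ := 5 * (k * L) with hKdef
  have hK0 : 0 < K := by positivity
  -- (b)
  have eb : 2 * √x * L ≤ c1 / 200 * G := by
    have h1 : 400 / c1 * L ^ 2 ≤ √x := by rw [hsr]; exact f3
    rw [hG, mul_div_assoc', le_div_iff₀ hL0]
    have h2 : 400 / c1 * L ^ 2 * √x ≤ √x * √x := mul_le_mul_of_nonneg_right h1 hsx0.le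
    rw [hsx] at h2
    have h3 : 2 * √x * L * L = c1 / 200 * (400 / c1 * L ^ 2 * √x) := by field_simp; ring
    rw [h3]
    exact mul_le_mul_of_nonneg_left h2 (by positivity)
  -- (a)
  have ea : K * (Sc 1 D * R + B * R') ≤ c1 / 200 * G := by
    have h1 : 400 / c1 * (10 * k * CS) * L ^ 7 ≤ √x := by rw [hsr]; exact f4
    have h2 : 400 / c1 * (10 * k ^ 2 * Cd) * L ^ 5 ≤ √x := by rw [hsr]; exact f5
    have h3 : K * (Sc 1 D * R + B * R') ≤ 10 * k * CS * L ^ 6 + 10 * k ^ 2 * Cd * L ^ 4 * √x := by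
      rw [hR, hR', hB, hKdef]
      calc 5 * (k * L) * (Sc 1 D * (2 * L ^ 3) + Cd * x ^ κ3 * (2 * k * L ^ 3)) ≤
          5 * (k * L) * (CS * L ^ 2 * (2 * L ^ 3) + Cd * √x * (2 * k * L ^ 3)) := by gcongr
        _ = _ := by ring
    refine h3.trans ?_
    rw [hG, mul_div_assoc', le_div_iff₀ hL0]
    have h4 : 400 / c1 * (10 * k * CS) * L ^ 7 ≤ x := by
      calc _ ≤ √x := h1
        _ = 1 * √x := (one_mul _).symm
        _ ≤ √x * √x := mul_le_mul_of_nonneg_right hsx1 hsx0.le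
        _ = x := hsx
    have h5 : 400 / c1 * (10 * k ^ 2 * Cd) * L ^ 5 * √x ≤ √x * √x :=
      mul_le_mul_of_nonneg_right h2 hsx0.le
    rw [hsx] at h5
    have h6 : (10 * k * CS * L ^ 6 + 10 * k ^ 2 * Cd * L ^ 4 * √x) * L =
        c1 / 400 * (400 / c1 * (10 * k * CS) * L ^ 7) +
        c1 / 400 * (400 / c1 * (10 * k ^ 2 * Cd) * L ^ 5 * √x) := by field_simp
    rw [h6]
    have h7 := mul_le_mul_of_nonneg_left h4 (show 0 ≤ c1 / 400 by positivity)
    have h8 := mul_le_mul_of_nonneg_left h5 (show 0 ≤ c1 / 400 by positivity)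
    linarith
  -- (e)
  have ee : K * D * L ≤ c1 / 200 * G := by
    have h1 : 1000 * k / c1 * L ^ 3 * x ^ μ ≤ x := by
      calc 1000 * k / c1 * L ^ 3 * x ^ μ ≤ x ^ (1 - μ) * x ^ μ :=
            mul_le_mul_of_nonneg_right f7 (by positivity)
        _ = x := by
            rw [← Real.rpow_add hX0]
            simp
    rw [hG, mul_div_assoc', le_div_iff₀ hL0]
    calc K * D * L * L ≤ 5 * (k * L) * x ^ μ * L * L := by
          rw [hKdef]
          gcongr
      _ = c1 / 200 * (1000 * k / c1 * L ^ 3 * x ^ μ) := by field_simp; ring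
      _ ≤ c1 / 200 * x := mul_le_mul_of_nonneg_left h1 (by positivity)
  -- (c)
  set BVs : ℝ := ∑ f ∈ Icc 2 F0, (1 / (Nat.totient f : ℝ)) * PA X (al x) f with hBVs
  have hBV := HBV x hxX1 F0 hF0le (by linarith)
  rw [hfl] at hBV
  have hlx2 : 1 / 2 * L ≤ Real.log (x / 2) := by
    have h1 : √x ≤ x / 2 := by
      have h4 : 2 ≤ √x := by
        rw [Real.le_sqrt' (by norm_num)]; linarith
      have h4' := mul_le_mul_of_nonneg_right h4 hsx0.le
      rw [hsx] at h4'
      linarith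
    have h5 := Real.log_le_log hsx0 h1
    rw [Real.log_sqrt hX0.le] at h5
    linarith
  have ec : K * (Sc 1 D * (BVs + F0 * R)) ≤ c1 / 100 * G := by
    have h1 : BVs ≤ 128 * x / L ^ 5 := by
      refine hBV.trans ?_
      have h2 : (1 / 2 * L) ^ 5 ≤ Real.log (x / 2) ^ 5 := pow_le_pow_left₀ (by positivity) hlx2 5
      calc 4 * x / Real.log (x / 2) ^ 5 ≤ 4 * x / (1 / 2 * L) ^ 5 :=
            div_le_div_of_nonneg_left (by positivity) (by positivity) h2
        _ = _ := by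
            field_simp
            ring
    have hBVs0 : 0 ≤ BVs := by
      rw [hBVs]
      apply sum_nonneg
      intro f _
      unfold PA
      positivity
    have h2 : K * (Sc 1 D * BVs) ≤ 640 * k * CS * x / L ^ 2 := by
      calc K * (Sc 1 D * BVs) ≤ K * (CS * L ^ 2 * (128 * x / L ^ 5)) := by
            gcongr
        _ = 640 * k * CS * x / L ^ 2 := by
            rw [hKdef]
            field_simp
            ring
    have h3 : 640 * k * CS * x / L ^ 2 ≤ c1 / 200 * G := by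
      have h4 : 200 * (640 * k * CS) / c1 ≤ L := (le_max_left _ _).trans f2
      rw [div_le_iff₀ hc10] at h4
      rw [hG, mul_div_assoc', div_le_div_iff₀ (by positivity) hL0]
      have h5 : 640 * k * CS ≤ c1 / 200 * L := by linarith
      calc 640 * k * CS * x * L ≤ (c1 / 200 * L) * x * L := by gcongr
        _ = c1 / 200 * x * L ^ 2 := by ring
    have h4 : K * (Sc 1 D * (F0 * R)) ≤ c1 / 200 * G := by
      have h5 : 2000 * k * CS / c1 * L ^ 7 ≤ √x := by rw [hsr]; exact f6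
      have h6 : K * (Sc 1 D * (F0 * R)) ≤ 10 * k * CS * L ^ 6 * √x := by
        rw [hR, hKdef]
        calc 5 * (k * L) * (Sc 1 D * (F0 * (2 * L ^ 3))) ≤
            5 * (k * L) * (CS * L ^ 2 * (√x * (2 * L ^ 3))) := by
              gcongr
          _ = _ := by ring
      refine h6.trans ?_
      rw [hG, mul_div_assoc', le_div_iff₀ hL0]
      have h7 : 2000 * k * CS / c1 * L ^ 7 * √x ≤ √x * √x :=
        mul_le_mul_of_nonneg_right h5 hsx0.le
      rw [hsx] at h7
      have h8 : 10 * k * CS * L ^ 6 * √x * L =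
          c1 / 200 * (2000 * k * CS / c1 * L ^ 7 * √x) := by
        field_simp
        ring
      rw [h8]
      exact mul_le_mul_of_nonneg_left h7 (by positivity)
    have h5 : K * (Sc 1 D * (BVs + F0 * R)) = K * (Sc 1 D * BVs) +
        K * (Sc 1 D * (F0 * R)) := by ring
    rw [h5]
    linarith
  -- the total error
  set TL : ℝ := Real.sqrt (12 * (1 + Real.log D) * (Real.sqrt (X * X) / F0 +
    (Real.sqrt X + Real.sqrt X) + D) * ∑ b ∈ Icc 1 X, al x b ^ 2) *
    Real.sqrt (∑ f ∈ Icc (F0 + 1) D, (coin S f : ℝ)) with hTL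
  have herr := err_total X F0 D (al x) S hF01 hF0D c K hK0.le w1
    (fun d hd => (w2 d hd).1) R hRb
  rw [← hBVs, ← hTL] at herr
  have hR0 : 0 ≤ R := by positivity
  clear_value BVs TL M B R R' G
  have hcD : ∀ d, c d ≠ 0 → Squarefree d ∧ d ≤ D := by
    intro d hd
    refine ⟨(w2 d hd).1, ?_⟩
    exact (Nat.le_floor (w2 d hd).2).trans (le_max_left _ _)
  -- lower bounds for each pair
  have hpt : ∀ P ∈ S, ∑ d ∈ (Icc 1 D).filter (fun d => Nat.Coprime (NN P) d),
      c d * Ed X (al x) d (rr d P) ≤ -(c1 * 5 / 200 * G) := by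
    intro P hP
    obtain ⟨g1, g2, g3, g4, g5, g6, g7⟩ := hS P hP
    have h5 := lowT x (x ^ ζ) P g5 g1 g3 D c K B R R' L hX1
      (by
        intro m hm
        rw [hfl, mem_Icc] at hm
        have hm0 : (0 : ℝ) < m := by exact_mod_cast hm.1
        have hmx : (m : ℝ) ≤ x := by
          rw [hx]
          exact_mod_cast hm.2
        exact (al_le x hX0 m hm.1).trans
          (ArithmeticFunction.vonMangoldt_le_log.trans (Real.log_le_log hm0 hmx)))
      hL0.le hK0.le w1 hcD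
      (fun N hN => by
        refine (w3 N hN).trans (le_of_eq ?_)
        congr)
      (by
        intro N hN1 hN2
        rw [hfl] at hN2
        exact hBdiv N hN1 (hN2.trans (hsize P hP)))
      (by rw [hfl]; exact hRb) hR0 (by rw [hfl]; exact hRb' P hP)
    rw [hfl, ← hMdef] at h5
    have h6 := TT_le x (x ^ ζ) hX1 P
    have h7 : ∑ d ∈ (Icc 1 D).filter (fun d => Nat.Coprime (NN P) d),
        c d * (1 / (Nat.totient d : ℝ)) =
        ∑ d ∈ (Icc 1 D0).filter (fun d => Nat.Coprime (NN P) d),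
          c d * (1 / (Nat.totient d : ℝ)) := by
      symm
      apply sum_subset
      · intro d hd
        rw [mem_filter, mem_Icc] at hd ⊢
        exact ⟨⟨hd.1.1, hd.1.2.trans (le_max_left _ _)⟩, hd.2⟩
      · intro d hd hd'
        rw [mem_filter, mem_Icc] at hd hd'
        have : c d = 0 := by
          by_contra hne
          exact hd' ⟨⟨hd.1.1, Nat.le_floor (w2 d hne).2⟩, hd.2⟩
        rw [this, zero_mul]
    have hNN1 : 1 ≤ NN P := by
      unfold NN
      exact Nat.mul_pos (Int.natAbs_pos.2 g1) g3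
    have hNN2 : NN P ≤ 2 * X ^ k := by
      unfold NN
      calc P.1.natAbs * P.2 ≤ X ^ A * X ^ A := Nat.mul_le_mul g2 g4
        _ = X ^ (2 * A) := by ring
        _ ≤ X ^ k := Nat.pow_le_pow_right (by omega) (by omega)
        _ ≤ 2 * X ^ k := by omega
    have h8 := w4 (NN P) hNN1 hNN2 g6
    rw [← h7] at h8
    have hs1 := one_le_sgs (NN P)
    have h9 : (cnt x (x ^ ζ) P : ℝ) ≤ cnt x (2 * x ^ u) P := by
      have : 2 * x ^ u ≤ x ^ ζ := by
        rw [hζ, Real.rpow_add hX0, mul_comm]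
        exact mul_le_mul_of_nonneg_left f1 (by positivity)
      exact_mod_cast cnt_mono x _ _ this P
    have h10 : Real.log x * cnt x (x ^ ζ) P ≤ c1 / 100 * G * sgs (NN P) := by
      calc Real.log x * cnt x (x ^ ζ) P ≤ L * (c1 / 100 * x / L ^ 2 * sgs (NN P)) := by
            apply mul_le_mul le_rfl (h9.trans g7.le) (by positivity) hL0.le
        _ = c1 / 100 * G * sgs (NN P) := by
            rw [hG]
            field_simp
    have h11 : x / 20 * (c0 / (k * L) * sgs (NN P)) ≤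
        M * ∑ d ∈ (Icc 1 D).filter (fun d => Nat.Coprime (NN P) d),
        c d * (1 / (Nat.totient d : ℝ)) := by
      apply mul_le_mul hM h8 (by positivity)
      exact le_trans (by positivity) hM
    have h12 : x / 20 * (c0 / (k * L) * sgs (NN P)) = c1 * 5 / 100 * G * sgs (NN P) := by
      rw [hG, hc1]
      field_simp
      ring
    have h14 : G ≤ G * sgs (NN P) := le_mul_of_one_le_right hG0.le hs1
    have h15 : c1 * G ≤ c1 * (G * sgs (NN P)) := mul_le_mul_of_nonneg_left h14 hc10.le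
    rw [← hL] at h6
    rw [← hL] at h10
    linarith
  -- exchange of the sums
  have hswap : ∑ P ∈ S, ∑ d ∈ (Icc 1 D).filter (fun d => Nat.Coprime (NN P) d),
      c d * Ed X (al x) d (rr d P) =
      ∑ d ∈ Icc 1 D, c d * ∑ P ∈ S.filter (fun P => (NN P).Coprime d),
        Ed X (al x) d (rr d P) := by
    simp_rw [sum_filter]
    rw [sum_comm]
    apply sum_congr rfl
    intro d _
    rw [mul_sum]
    apply sum_congr rfl
    intro n _
    split_ifs <;> simp
  have hsum := sum_le_sum hpt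
  rw [hswap, sum_const, nsmul_eq_mul] at hsum
  have habs := (abs_le.1 herr).1
  clear_value K D F0 c1
  have hfin : (S.card : ℝ) * (c1 * 3 / 200 * G) ≤ K * (Sc 1 D * TL) :=
    arith1 (Nat.cast_nonneg _) habs hsum ec
  have hs0 : (0 : ℝ) ≤ S.card := Nat.cast_nonneg _
  constructor
  · -- few pairs
    have hcoin : ∑ f ∈ Icc (F0 + 1) D, (coin S f : ℝ) ≤ D * S.card + B * (S.card : ℝ) ^ 2 := by
      apply coin_sum S (fun P hP => ⟨(hS P hP).2.2.2.2.1, (hS P hP).2.2.1⟩) (F0 + 1) D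
        (by omega) B _ hB0.le
      intro P hP Q hQ hne
      apply hBdiv
      · exact Int.natAbs_pos.2 hne
      · obtain ⟨-, g2, -, g4, -⟩ := hS P hP
        obtain ⟨-, g2', -, g4', -⟩ := hS Q hQ
        calc (P.1 * Q.2 - Q.1 * P.2).natAbs ≤ (P.1 * Q.2).natAbs + (Q.1 * P.2).natAbs :=
              Int.natAbs_sub_le _ _
          _ = P.1.natAbs * Q.2 + Q.1.natAbs * P.2 := by
              rw [Int.natAbs_mul, Int.natAbs_mul, Int.natAbs_natCast, Int.natAbs_natCast]
          _ ≤ X ^ A * X ^ A + X ^ A * X ^ A :=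
              Nat.add_le_add (Nat.mul_le_mul g2 g4') (Nat.mul_le_mul g2' g4)
          _ = 2 * X ^ (2 * A) := by ring
          _ ≤ X * X ^ (2 * A) := Nat.mul_le_mul_right _ (by omega)
          _ = X ^ (2 * A + 1) := by ring
          _ ≤ X ^ (k + 1) := Nat.pow_le_pow_right (by omega) (by omega)
    have hal2 : ∑ b ∈ Icc 1 X, al x b ^ 2 ≤ x * L ^ 2 := by
      have := al_sq x hX1
      rwa [hfl] at this
    have hlsf := lsf X F0 (D : ℝ) x κ μ hx (by linarith) (by linarith) hF01 hF0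
      (le_max_left _ _) hκ0 hDμ
    have hTLb := TL_bound x L (Real.log D) (Real.sqrt (X * X) / F0 +
      (Real.sqrt X + Real.sqrt X) + D) (∑ b ∈ Icc 1 X, al x b ^ 2)
      (∑ f ∈ Icc (F0 + 1) D, (coin S f : ℝ)) D S.card B μ hX1 hL1 hlD hlD0 hlsf
      (by positivity) hal2 (sum_nonneg fun _ _ => sq_nonneg _) hcoin hs0 hDμ
      (Nat.cast_nonneg _) hB0.le
    rw [← hTL] at hTLb
    have hKS : K * Sc 1 D ≤ (5 * k * CS) * L ^ 3 := by
      rw [hKdef]
      calc 5 * (k * L) * Sc 1 D ≤ 5 * (k * L) * (CS * L ^ 2) :=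
            mul_le_mul_of_nonneg_left hSc (by positivity)
        _ = _ := by ring
    have hsB : √B ≤ (Cd + 1) * x ^ ((1 - μ) / 8) := by
      rw [Real.sqrt_le_left (by positivity), hB]
      have e1 : x ^ κ3 = (x ^ ((1 - μ) / 8)) ^ 2 := by
        rw [← Real.rpow_natCast, ← Real.rpow_mul hX0.le, hκ3]
        congr 1
        push_cast
        ring
      rw [e1, mul_pow]
      apply mul_le_mul_of_nonneg_right _ (by positivity)
      have := hCd.le
      linarith [sq_nonneg Cd]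
    have hfin2 : (S.card : ℝ) * (c1 * 3 / 200 * (x / L)) ≤ (5 * k * CS) * L ^ 3 *
        ((14 * L ^ 2 * x ^ ((1 + μ) / 2)) * (x ^ (μ / 2) * √(S.card : ℝ) +
          (Cd + 1) * x ^ ((1 - μ) / 8) * S.card)) := by
      rw [← hG]
      calc (S.card : ℝ) * (c1 * 3 / 200 * G) ≤ K * (Sc 1 D * TL) := hfin
        _ = (K * Sc 1 D) * TL := by ring
        _ ≤ ((5 * k * CS) * L ^ 3) * ((14 * L ^ 2 * x ^ ((1 + μ) / 2)) *
            (x ^ (μ / 2) * √(S.card : ℝ) + √B * S.card)) := by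
            apply mul_le_mul hKS hTLb _ (by positivity)
            rw [hTL]
            positivity
        _ ≤ _ := by
            apply mul_le_mul_of_nonneg_left _ (by positivity)
            apply mul_le_mul_of_nonneg_left _ (by positivity)
            apply add_le_add le_rfl
            exact mul_le_mul_of_nonneg_right hsB hs0
    have hU1 : 20 * (5 * (k : ℝ) * CS) = 100 * k * CS := by ring
    have hcon := concl x L S.card (5 * k * CS) c1 Cd μ ε hX1 hL1 hs0 (by positivity) hc10 hCd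
      hfin2 (by rw [hU1]; exact f8) (by rw [hU1]; exact f9)
    refine hcon.trans (Real.rpow_le_rpow_of_exponent_le hX1 ?_)
    have h6 : 2 * μ - 1 ≤ max 0 (4 * u - 1) + 8 * κ := by
      rw [hμ]
      rcases max_cases (1 / 2 + κ) τ' with h8 | h8
      · rw [h8.1]
        have := le_max_left 0 (4 * u - 1)
        linarith
      · rw [h8.1]
        have := le_max_right 0 (4 * u - 1)
        linarith
    linarith
  · -- no pairs
    intro hu4
    have hκ4' : κ4 = (1 / 4 - u) / 8 := by rw [hκ4, if_pos hu4]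
    have h1 : x ^ τ' ≤ (x / 2) ^ (1 / 2 - κ) := by
      calc x ^ τ' ≤ x ^ (1 / 2 - κ - κ) :=
            Real.rpow_le_rpow_of_exponent_le hX1 (by linarith)
        _ = x ^ (1 / 2 - κ) / x ^ κ := Real.rpow_sub hX0 _ _
        _ ≤ x ^ (1 / 2 - κ) / 2 := div_le_div_of_nonneg_left (by positivity) (by norm_num) f1
        _ ≤ x ^ (1 / 2 - κ) / 2 ^ (1 / 2 - κ) := by
            apply div_le_div_of_nonneg_left (by positivity) (by positivity)
            calc (2 : ℝ) ^ (1 / 2 - κ) ≤ 2 ^ (1 : ℝ) :=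
                  Real.rpow_le_rpow_of_exponent_le (by norm_num) (by linarith)
              _ = 2 := Real.rpow_one _
        _ = (x / 2) ^ (1 / 2 - κ) := (Real.div_rpow hX0.le (by norm_num) _).symm
    have h2 : D0 ≤ F0 := by
      rw [hF0, hD0]
      exact Nat.floor_le_floor h1
    have h3 : D = F0 := by rw [hD]; exact max_eq_right h2
    have h3' : Icc (F0 + 1) D = ∅ := by
      apply Icc_eq_empty
      rw [h3]
      exact Nat.not_succ_le_self F0
    have h4 : TL = 0 := by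
      rw [hTL, h3', sum_empty, Real.sqrt_zero, mul_zero]
    rw [h4, mul_zero, mul_zero] at hfin
    by_contra hne
    have h5 : (0 : ℝ) < S.card := by
      have := card_pos.2 (nonempty_iff_ne_empty.2 hne)
      exact_mod_cast this
    have h6 : 0 < (S.card : ℝ) * (c1 * 3 / 200 * G) :=
      mul_pos h5 (mul_pos (div_pos (mul_pos hc10 (by norm_num)) (by norm_num)) hG0)
    exact absurd hfin (not_le.2 h6)

end Pool.Agent.H570.PR
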