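import Pool.Graph.R_seed8.Y882.Low
import Pool.Agent.H570.PR.Err

/-! The pointwise lower bound for the sifted sum over `m`, the sifted numbers being `|a + m d|`
(adapted from `Pool.Agent.Y882.Low`). -/

set_option autoImplicit false

open Finset Filter Topology

namespace Pool.Agent.H570.PR

open Pool.Agent.Y882 hiding TT cnt TT_le lowT ed_sum err_total
open Pool.Agent.H410R2
open Pool.Agent.Helper112 Pool.Agent.Helper112.BLB
open Pool.Agent.H732R2.B2 (Sc)

/-- the number `|a + m d|` -/
def sh (P : ℤ × ℕ) (m : ℕ) : ℕ := (P.1 + m * P.2).natAbs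

open Classical in
/-- the sifted sum -/
noncomputable def TT (x w : ℝ) (P : ℤ × ℕ) : ℝ :=
  ∑ m ∈ Icc 1 ⌊x⌋₊, al x m * (if ∀ q : ℕ, q.Prime → q ∣ sh P m → w ≤ q then 1 else 0)

open Classical in
/-- the number of primes `p` in `(x / 2, x)` such that `|a + p d|` has no prime factor below `w` -/
noncomputable def cnt (x w : ℝ) (P : ℤ × ℕ) : ℕ :=
  ((Icc 1 ⌊x⌋₊).filter (fun p : ℕ => p.Prime ∧ x / 2 < p ∧ (p : ℝ) < x ∧
    ∀ q : ℕ, q.Prime → q ∣ sh P p → w ≤ q)).card

theorem sh_dvd (P : ℤ × ℕ) (m d : ℕ) (hd : d ≠ 0) (h : (NN P).Coprime d) :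
    d ∣ sh P m ↔ m ≡ rr d P [MOD d] := by
  have : NeZero d := ⟨hd⟩
  rw [← rr_iff d m P h]
  unfold sh
  rw [← Int.natCast_dvd]

theorem sh_le (P : ℤ × ℕ) (m : ℕ) : sh P m ≤ P.1.natAbs + m * P.2 := by
  unfold sh
  refine (Int.natAbs_add_le _ _).trans ?_
  rw [Int.natAbs_mul, Int.natAbs_natCast, Int.natAbs_natCast]

theorem sh_prime (P : ℤ × ℕ) (hP : Int.gcd P.1 P.2 = 1) (m p : ℕ) (hp : p.Prime)
    (h1 : p ∣ sh P m) (h2 : p ∣ NN P) : p ∣ m ∧ p ∣ P.1.natAbs := by
  have h1' : (p : ℤ) ∣ P.1 + m * P.2 := by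
    rw [Int.natCast_dvd]; exact h1
  have hg : ¬ ((p : ℤ) ∣ P.1 ∧ (p : ℤ) ∣ P.2) := by
    rintro ⟨h3, h4⟩
    have h5 : p ∣ Int.gcd P.1 P.2 := by
      have := Int.dvd_coe_gcd h3 h4
      exact_mod_cast this
    rw [hP] at h5
    exact hp.one_lt.ne' (Nat.dvd_one.1 h5)
  rcases (Nat.Prime.dvd_mul hp).1 h2 with h3 | h3
  · have h4 : (p : ℤ) ∣ P.1 := Int.natCast_dvd.2 h3
    have h5 : (p : ℤ) ∣ m * P.2 := (dvd_add_right h4).1 h1'
    refine ⟨?_, h3⟩
    have h6 : p ∣ m * P.2 := by exact_mod_cast h5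
    rcases (Nat.Prime.dvd_mul hp).1 h6 with h7 | h7
    · exact h7
    · exact absurd ⟨h4, by exact_mod_cast h7⟩ hg
  · have h4 : (p : ℤ) ∣ P.2 := by exact_mod_cast h3
    have h5 : (p : ℤ) ∣ P.1 := (dvd_add_left (Dvd.dvd.mul_left h4 _)).1 h1'
    exact absurd ⟨h5, h4⟩ hg

theorem TT_le (x w : ℝ) (hx : 1 ≤ x) (P : ℤ × ℕ) :
    TT x w P ≤ Real.log x * cnt x w P + 2 * √x * Real.log x := by
  classical
  have h0 : 0 ≤ Real.log x := Real.log_nonneg hx
  have hx0 : 0 < x := by linarith
  have h1 : TT x w P ≤ ∑ m ∈ Icc 1 ⌊x⌋₊, ((if m.Prime ∧ x / 2 < m ∧ (m : ℝ) < x ∧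
      (∀ q : ℕ, q.Prime → q ∣ sh P m → w ≤ q) then Real.log x else 0) +
      (if ¬ m.Prime then al x m else 0)) := by
    unfold TT
    apply sum_le_sum
    intro m hm
    rw [mem_Icc] at hm
    have hm0 : (0 : ℝ) < m := by exact_mod_cast hm.1
    have hmx : (m : ℝ) ≤ x := (Nat.le_floor_iff hx0.le).1 hm.2
    have hal0 := al_nonneg x hx0 m hm.1
    obtain ⟨c1, c2, c3, c4, c5⟩ := tw_cases x hx0 m hm.1
    by_cases hr : ∀ q : ℕ, q.Prime → q ∣ sh P m → w ≤ q
    · rw [if_pos hr, mul_one]
      by_cases hp : m.Prime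
      · rw [if_neg (not_not.2 hp), add_zero]
        by_cases h3 : x / 2 < m ∧ (m : ℝ) < x
        · rw [if_pos ⟨hp, h3.1, h3.2, hr⟩]
          exact (al_le x hx0 m hm.1).trans
            (ArithmeticFunction.vonMangoldt_le_log.trans (Real.log_le_log hm0 hmx))
        · have h4 : tw x m = 0 := by
            by_contra hne
            apply h3
            constructor
            · by_contra h5
              push Not at h5
              exact hne (c3 h5)
            · by_contra h5
              push Not at h5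
              exact hne (c4 h5)
          have h5 : al x m = 0 := by unfold al; rw [h4, mul_zero]
          rw [h5]
          split_ifs
          · exact h0
          · exact le_rfl
      · rw [if_pos hp]
        have : (0 : ℝ) ≤ (if m.Prime ∧ x / 2 < m ∧ (m : ℝ) < x ∧
          (∀ q : ℕ, q.Prime → q ∣ sh P m → w ≤ q) then Real.log x else 0) := by
          split_ifs
          · exact h0
          · exact le_rfl
        linarith
    · rw [if_neg hr, mul_zero]
      apply add_nonneg
      · split_ifs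
        · exact h0
        · exact le_rfl
      · split_ifs
        · exact le_rfl
        · exact hal0
  refine h1.trans ?_
  rw [sum_add_distrib, ← sum_filter, ← sum_filter, sum_const, nsmul_eq_mul]
  have h2 := al_pp x hx
  unfold cnt
  linarith

theorem lowT (x w : ℝ) (P : ℤ × ℕ) (hP : Int.gcd P.1 P.2 = 1) (hP1 : P.1 ≠ 0) (hP2 : 1 ≤ P.2)
    (D : ℕ) (c : ℕ → ℝ) (K B R R' E0 : ℝ) (hx1 : 1 ≤ x)
    (hE0 : ∀ m ∈ Icc 1 ⌊x⌋₊, al x m ≤ E0) (hE00 : 0 ≤ E0)
    (hK0 : 0 ≤ K) (hK : ∀ d, |c d| ≤ K) (hc : ∀ d, c d ≠ 0 → Squarefree d ∧ d ≤ D)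
    (hN : ∀ N : ℕ, N ≠ 0 → ∑ d ∈ N.divisors, c d ≤
      (open Classical in if ∀ p : ℕ, p.Prime → p ∣ N → w ≤ p then 1 else 0))
    (hB : ∀ N : ℕ, 1 ≤ N → N ≤ P.1.natAbs + ⌊x⌋₊ * P.2 → (N.divisors.card : ℝ) ≤ B)
    (hR : ∀ g : ℕ, 1 ≤ g → g ≤ D →
      ∑ b ∈ (Icc 1 ⌊x⌋₊).filter (fun b => ¬ b.Coprime g), |al x b| ≤ R) (hR0 : 0 ≤ R)
    (hR' : ∑ b ∈ (Icc 1 ⌊x⌋₊).filter (fun b => ¬ b.Coprime P.1.natAbs), |al x b| ≤ R') :
    ∑ d ∈ (Icc 1 D).filter (fun d => Nat.Coprime (NN P) d),
        c d * Ed ⌊x⌋₊ (al x) d (rr d P) +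
      (∑ m ∈ Icc 1 ⌊x⌋₊, al x m) * ∑ d ∈ (Icc 1 D).filter (fun d => Nat.Coprime (NN P) d),
        c d * (1 / (Nat.totient d : ℝ)) - K * (Sc 1 D * R + B * R') - K * D * E0 ≤ TT x w P := by
  classical
  set X := ⌊x⌋₊ with hX
  set n := NN P with hn
  have hx0 : 0 < x := by linarith
  have hB0 : 0 ≤ B := (Nat.cast_nonneg _).trans (hB 1 le_rfl (by
    have : 1 ≤ P.1.natAbs := Int.natAbs_pos.2 hP1
    omega))
  have hR'0 : 0 ≤ R' := (sum_nonneg fun _ _ => abs_nonneg _).trans hR'
  have hal0 : ∀ m ∈ Icc 1 X, 0 ≤ al x m := fun m hm => al_nonneg x hx0 m (mem_Icc.1 hm).1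
  -- step 1: the sieve inequality
  have s1 : ∑ m ∈ Icc 1 X, al x m * ∑ d ∈ (sh P m).divisors, c d ≤ TT x w P := by
    unfold TT
    apply sum_le_sum
    intro m hm
    by_cases h0 : sh P m = 0
    · rw [h0, Nat.divisors_zero, sum_empty, mul_zero]
      apply mul_nonneg (hal0 m hm)
      split_ifs
      · exact zero_le_one
      · exact le_rfl
    apply mul_le_mul_of_nonneg_left _ (hal0 m hm)
    refine (hN (sh P m) h0).trans (le_of_eq ?_)
    congr
  -- step 2: separate the moduli
  have s2 : ∀ m ∈ Icc 1 X, al x m * ∑ d ∈ (sh P m).divisors, c d ≥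
      al x m * ∑ d ∈ (sh P m).divisors.filter (fun d => Nat.Coprime n d), c d -
        (if ¬ m.Coprime P.1.natAbs then |al x m| * (K * B) else 0) := by
    intro m hm
    have hm1 := hm
    rw [mem_Icc] at hm1
    by_cases h0 : sh P m = 0
    · rw [h0, Nat.divisors_zero, filter_empty, sum_empty, mul_zero, zero_sub]
      have hpos : (0 : ℝ) ≤ (if ¬ m.Coprime P.1.natAbs then |al x m| * (K * B) else 0) := by
        split_ifs
        · exact le_rfl
        · positivity
      linarith
    have e1 : ∑ d ∈ (sh P m).divisors, c d =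
        ∑ d ∈ (sh P m).divisors.filter (fun d => Nat.Coprime n d), c d +
        ∑ d ∈ (sh P m).divisors.filter (fun d => ¬ Nat.Coprime n d), c d := by
      rw [sum_filter_add_sum_filter_not]
    rw [e1, mul_add]
    by_cases hcop : m.Coprime P.1.natAbs
    · have e2 : (sh P m).divisors.filter (fun d => ¬ Nat.Coprime n d) = ∅ := by
        rw [filter_eq_empty_iff]
        intro d hd hnd
        obtain ⟨p, hp, hpn, hpd⟩ := Nat.Prime.not_coprime_iff_dvd.1 hnd
        have h3 : p ∣ sh P m := hpd.trans (Nat.dvd_of_mem_divisors hd)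
        obtain ⟨h4, h4'⟩ := sh_prime P hP m p hp h3 hpn
        have h5 := Nat.dvd_gcd h4 h4'
        rw [hcop] at h5
        have := hp.one_lt
        have := Nat.le_of_dvd one_pos h5
        omega
      rw [e2, sum_empty, mul_zero, if_neg (by simpa using hcop)]
      simp
    · rw [if_pos hcop]
      have h3 : |∑ d ∈ (sh P m).divisors.filter (fun d => ¬ Nat.Coprime n d), c d| ≤ K * B := by
        refine (abs_sum_le_sum_abs _ _).trans ?_
        calc ∑ d ∈ (sh P m).divisors.filter (fun d => ¬ Nat.Coprime n d), |c d| ≤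
            ∑ d ∈ (sh P m).divisors, |c d| :=
              sum_le_sum_of_subset_of_nonneg (filter_subset _ _) fun _ _ _ => abs_nonneg _
          _ ≤ ∑ d ∈ (sh P m).divisors, K := sum_le_sum fun d _ => hK d
          _ = ((sh P m).divisors.card : ℝ) * K := by rw [sum_const, nsmul_eq_mul]
          _ ≤ B * K := mul_le_mul_of_nonneg_right (hB (sh P m) (by omega)
                ((sh_le P m).trans (Nat.add_le_add_left (Nat.mul_le_mul_right _ hm1.2) _))) hK0
          _ = K * B := mul_comm _ _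
      have h4 := (abs_le.1 h3).1
      have h5 := mul_le_mul_of_nonneg_left h4 (hal0 m hm)
      rw [abs_of_nonneg (hal0 m hm)]
      linarith
  have s3 : ∑ m ∈ Icc 1 X, al x m * ∑ d ∈ (sh P m).divisors.filter (fun d => Nat.Coprime n d), c d -
      K * B * R' ≤ ∑ m ∈ Icc 1 X, al x m * ∑ d ∈ (sh P m).divisors, c d := by
    have h3 := sum_le_sum s2
    rw [sum_sub_distrib, ← sum_filter, ← sum_mul] at h3
    have h4 : (∑ m ∈ (Icc 1 X).filter (fun m => ¬ m.Coprime P.1.natAbs), |al x m|) * (K * B) ≤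
        R' * (K * B) := mul_le_mul_of_nonneg_right hR' (mul_nonneg hK0 hB0)
    linarith
  -- the possible zero
  have hzero : ∑ m ∈ Icc 1 X, (if sh P m = 0 then K * D * al x m else 0) ≤ K * D * E0 := by
    rw [← sum_filter]
    have h1 : ((Icc 1 X).filter (fun m => sh P m = 0)).card ≤ 1 := by
      rw [card_le_one]
      intro m hm m' hm'
      rw [mem_filter] at hm hm'
      have h2 : P.1 + m * P.2 = 0 := Int.natAbs_eq_zero.1 hm.2
      have h3 : P.1 + m' * P.2 = 0 := Int.natAbs_eq_zero.1 hm'.2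
      have h4 : (m : ℤ) * P.2 = m' * P.2 := by linarith
      have h5 : (P.2 : ℤ) ≠ 0 := by
        have : 0 < P.2 := hP2
        exact_mod_cast this.ne'
      exact_mod_cast mul_right_cancel₀ h5 h4
    calc ∑ m ∈ (Icc 1 X).filter (fun m => sh P m = 0), K * D * al x m ≤
        ∑ m ∈ (Icc 1 X).filter (fun m => sh P m = 0), K * D * E0 := by
          apply sum_le_sum
          intro m hm
          exact mul_le_mul_of_nonneg_left (hE0 m (mem_filter.1 hm).1) (by positivity)
      _ = (((Icc 1 X).filter (fun m => sh P m = 0)).card : ℝ) * (K * D * E0) := by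
          rw [sum_const, nsmul_eq_mul]
      _ ≤ 1 * (K * D * E0) := by
          apply mul_le_mul_of_nonneg_right _ (by positivity)
          exact_mod_cast h1
      _ = _ := one_mul _
  -- step 3: exchange the sums
  have s4 : ∑ d ∈ (Icc 1 D).filter (fun d => Nat.Coprime n d),
        c d * ∑ m ∈ (Icc 1 X).filter (fun m => m ≡ rr d P [MOD d]), al x m - K * D * E0 ≤
      ∑ m ∈ Icc 1 X, al x m * ∑ d ∈ (sh P m).divisors.filter (fun d => Nat.Coprime n d), c d := by
    have h3 : ∀ m ∈ Icc 1 X, ∑ d ∈ (Icc 1 D).filter (fun d => Nat.Coprime n d),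
          (if m ≡ rr d P [MOD d] then c d * al x m else 0) -
          (if sh P m = 0 then K * D * al x m else 0) ≤ al x m *
        ∑ d ∈ (sh P m).divisors.filter (fun d => Nat.Coprime n d), c d := by
      intro m hm
      have hal := hal0 m hm
      by_cases h0 : sh P m = 0
      · rw [h0, Nat.divisors_zero, filter_empty, sum_empty, mul_zero, if_pos rfl]
        have h4 : ∑ d ∈ (Icc 1 D).filter (fun d => Nat.Coprime n d),
            (if m ≡ rr d P [MOD d] then c d * al x m else 0) ≤
            ∑ d ∈ (Icc 1 D).filter (fun d => Nat.Coprime n d), K * al x m := by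
          apply sum_le_sum
          intro d _
          split_ifs
          · exact mul_le_mul_of_nonneg_right ((le_abs_self _).trans (hK d)) hal
          · positivity
        rw [sum_const, nsmul_eq_mul] at h4
        have h5 : (((Icc 1 D).filter (fun d => Nat.Coprime n d)).card : ℝ) ≤ D := by
          have := card_filter_le (Icc 1 D) (fun d => Nat.Coprime n d)
          rw [Nat.card_Icc, Nat.add_sub_cancel] at this
          exact_mod_cast this
        have h6 : (((Icc 1 D).filter (fun d => Nat.Coprime n d)).card : ℝ) * (K * al x m) ≤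
            D * (K * al x m) := mul_le_mul_of_nonneg_right h5 (by positivity)
        linarith
      rw [if_neg h0, sub_zero]
      apply le_of_eq
      rw [mem_Icc] at hm
      rw [← sum_filter, mul_sum]
      have h4 : ∑ d ∈ (sh P m).divisors.filter (fun d => Nat.Coprime n d), al x m * c d =
          ∑ d ∈ ((sh P m).divisors.filter (fun d => Nat.Coprime n d)).filter (fun d => c d ≠ 0),
            al x m * c d := by
        symm
        apply sum_filter_of_ne
        intro d _ h
        exact (mul_ne_zero_iff.1 h).2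
      have h5 : ∑ d ∈ ((Icc 1 D).filter (fun d => Nat.Coprime n d)).filter
          (fun d => m ≡ rr d P [MOD d]), c d * al x m =
          ∑ d ∈ (((Icc 1 D).filter (fun d => Nat.Coprime n d)).filter
          (fun d => m ≡ rr d P [MOD d])).filter (fun d => c d ≠ 0), c d * al x m := by
        symm
        apply sum_filter_of_ne
        intro d _ h
        exact (mul_ne_zero_iff.1 h).1
      rw [h4, h5]
      have h6 : ((sh P m).divisors.filter (fun d => Nat.Coprime n d)).filter (fun d => c d ≠ 0) =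
          (((Icc 1 D).filter (fun d => Nat.Coprime n d)).filter
          (fun d => m ≡ rr d P [MOD d])).filter (fun d => c d ≠ 0) := by
        ext d
        simp only [mem_filter, mem_Icc, Nat.mem_divisors]
        constructor
        · rintro ⟨⟨⟨h7, h8⟩, h9⟩, h10⟩
          have hd0 : 0 < d := Nat.pos_of_dvd_of_pos h7 (Nat.pos_of_ne_zero h8)
          refine ⟨⟨⟨⟨hd0, (hc d h10).2⟩, h9⟩, ?_⟩, h10⟩
          exact (sh_dvd P m d hd0.ne' h9).1 h7
        · rintro ⟨⟨⟨⟨h7, h8⟩, h9⟩, h10⟩, h11⟩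
          exact ⟨⟨⟨(sh_dvd P m d (by omega) h9).2 h10, h0⟩, h9⟩, h11⟩
      rw [h6]
      exact sum_congr rfl fun d _ => mul_comm _ _
    have h4 := sum_le_sum h3
    rw [sum_sub_distrib, sum_comm] at h4
    have h5 : ∑ d ∈ (Icc 1 D).filter (fun d => Nat.Coprime n d),
        c d * ∑ m ∈ (Icc 1 X).filter (fun m => m ≡ rr d P [MOD d]), al x m =
        ∑ d ∈ (Icc 1 D).filter (fun d => Nat.Coprime n d), ∑ m ∈ Icc 1 X,
          (if m ≡ rr d P [MOD d] then c d * al x m else 0) := by
      apply sum_congr rfl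
      intro d _
      rw [mul_sum, sum_filter]
    rw [h5]
    linarith
  -- step 4: the main term
  have s5 : ∀ d ∈ (Icc 1 D).filter (fun d => Nat.Coprime n d),
      c d * Ed X (al x) d (rr d P) + (∑ m ∈ Icc 1 X, al x m) * (c d * (1 / (Nat.totient d : ℝ))) -
        (if Squarefree d then K * R * (1 ^ d.primeFactors.card / (Nat.totient d : ℝ)) else 0) ≤
      c d * ∑ m ∈ (Icc 1 X).filter (fun m => m ≡ rr d P [MOD d]), al x m := by
    intro d hd
    rw [mem_filter, mem_Icc] at hd
    have hφ : (0 : ℝ) < Nat.totient d := by exact_mod_cast Nat.totient_pos.2 hd.1.1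
    have e1 : ∑ m ∈ (Icc 1 X).filter (fun m => m ≡ rr d P [MOD d]), al x m =
        Ed X (al x) d (rr d P) +
        1 / (Nat.totient d : ℝ) * (∑ m ∈ Icc 1 X, al x m -
          ∑ m ∈ (Icc 1 X).filter (fun m => ¬ m.Coprime d), al x m) := by
      have e2 : ∑ m ∈ Icc 1 X, al x m = ∑ m ∈ (Icc 1 X).filter (fun m => m.Coprime d), al x m +
          ∑ m ∈ (Icc 1 X).filter (fun m => ¬ m.Coprime d), al x m := by
        rw [sum_filter_add_sum_filter_not]
      rw [e2]
      unfold Ed
      ring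
    have e3 : 0 ≤ ∑ m ∈ (Icc 1 X).filter (fun m => ¬ m.Coprime d), al x m :=
      sum_nonneg fun m hm => hal0 m (mem_filter.1 hm).1
    have e4 : ∑ m ∈ (Icc 1 X).filter (fun m => ¬ m.Coprime d), al x m ≤ R := by
      refine le_trans (sum_le_sum fun m _ => le_abs_self _) (hR d hd.1.1 hd.1.2)
    rw [e1]
    set Q := ∑ m ∈ (Icc 1 X).filter (fun m => ¬ m.Coprime d), al x m with hQ
    have e5 : c d * (1 / (Nat.totient d : ℝ)) * Q ≤
        (if Squarefree d then K * R * (1 ^ d.primeFactors.card / (Nat.totient d : ℝ)) else 0) := by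
      split_ifs with hs
      · have e6 : c d ≤ K := (le_abs_self _).trans (hK d)
        rw [one_pow]
        calc c d * (1 / (Nat.totient d : ℝ)) * Q ≤ K * (1 / (Nat.totient d : ℝ)) * Q := by
              gcongr
          _ ≤ K * (1 / (Nat.totient d : ℝ)) * R := by gcongr
          _ = _ := by ring
      · have : c d = 0 := by
          by_contra hne
          exact hs (hc d hne).1
        rw [this]
        simp
    have e7 : c d * (Ed X (al x) d (rr d P) +
        1 / (Nat.totient d : ℝ) * (∑ m ∈ Icc 1 X, al x m - Q)) =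
        c d * Ed X (al x) d (rr d P) +
        (∑ m ∈ Icc 1 X, al x m) * (c d * (1 / (Nat.totient d : ℝ))) -
        c d * (1 / (Nat.totient d : ℝ)) * Q := by ring
    rw [e7]
    linarith
  have s6 := sum_le_sum s5
  rw [sum_sub_distrib, sum_add_distrib, ← mul_sum] at s6
  have s7 : ∑ d ∈ (Icc 1 D).filter (fun d => Nat.Coprime n d),
      (if Squarefree d then K * R * (1 ^ d.primeFactors.card / (Nat.totient d : ℝ)) else 0) ≤
      K * R * Sc 1 D := by
    have h3 : ∀ d : ℕ, 0 ≤ (if Squarefree d then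
        K * R * (1 ^ d.primeFactors.card / (Nat.totient d : ℝ)) else 0) := by
      intro d
      split_ifs
      · exact mul_nonneg (mul_nonneg hK0 hR0) (by positivity)
      · exact le_rfl
    refine (sum_le_sum_of_subset_of_nonneg (filter_subset _ _) (fun d _ _ => h3 d)).trans ?_
    unfold Sc
    rw [← sum_filter, ← mul_sum]
  linarith

end Pool.Agent.H570.PR
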